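import Pool.Agent.Lib.MP_f99268_lc_X.Red
import Pool.Agent.Lib.MP_f99268_lc.Final

/-!
# From the absence of the bad situation to Q1 in every arity
-/

namespace Pool.Agent.MP_f99268_lc

open Equiv Classical

variable {ι : Type} {ar : ι → ℕ} {D : Type}

/-- A finite set that contains all types of `r`-tuples. -/
theorem exists_rich₀ {G : Subgroup (Perm D)} (hO : Olig G) (r : ℕ) :
    ∃ A : Finset D, Rich G r A := by
  obtain ⟨T, hT⟩ := hO.fin ∅ r
  refine ⟨T.biUnion fun t => Finset.univ.image t, fun x => ?_⟩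
  obtain ⟨g, hg, hgT⟩ := hT x
  exact ⟨g, st_le hg, fun i => Finset.mem_biUnion.2
    ⟨_, hgT, Finset.mem_image.2 ⟨i, Finset.mem_univ _, rfl⟩⟩⟩

/-- Types of tuples are determined by the types of their `r`-subtuples, for some `r`. -/
theorem exists_lo_autG [Finite ι] {Δ : Str ι ar D} (hΔ : Homogeneous Δ) :
    ∃ r, LO (autG Δ) r := by
  obtain ⟨r, hr⟩ : ∃ r, ∀ i, ar i ≤ r := by
    obtain ⟨r, h⟩ := (Set.finite_range ar).bddAbove
    exact ⟨r, fun i => h ⟨i, rfl⟩⟩
  exact ⟨max r 2, fun _ _ x y h =>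
    orb_local hΔ (fun i => (hr i).trans (le_max_left _ _)) (le_max_right _ _) x y h⟩

/-- Q1 in every arity, provided that the bad situation does not occur. -/
theorem all_arities_of [Finite ι] [Countable D] {Δ : Str ι ar D}
    (hbad : ∀ (X : Ctx D) (r : ℕ) (A : Finset D) (J : D → D → D), IsJ X r A J →
      ∀ H K, ¬ Bad X H K)
    (hlin : IsStrictTotalOrder D Δ.lt) (hΔ : Homogeneous Δ) (hR : RamseyProperty Δ)
    {Γ : (n : ℕ) → Set (Set (Fin n → D))} (hΓ : IsReduct Δ Γ)
    (hno : ¬ HasHomToProjections (Pol Γ)) :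
    ∃ (n : ℕ) (c : Fin n → D), ∀ m, ¬ HasHomToProjections (TypeClone Δ c (Pol Γ) m) := by
  by_contra hcon
  push Not at hcon
  have hhom : ∀ B : Finset D, Nonempty (HomC (autG Δ) (Pol Γ) B) := by
    intro B
    obtain ⟨m, hm⟩ := hcon B.card (fun i => (B.equivFin.symm i : D))
    refine exists_homC (fun a => ?_) hm
    constructor
    · intro ha
      exact ⟨B.equivFin ⟨a, ha⟩, by simp⟩
    · rintro ⟨i, rfl⟩
      exact (B.equivFin.symm i).2
  let X : Ctx D :=
    { G := autG Δ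
      C := Pol Γ
      hR := fr_autG hlin hΔ hR
      hO := olig_autG hlin hΔ
      hC := isClone_pol hΓ
      hom := fun B => (hhom B).some }
  obtain ⟨r, hlo⟩ := exists_lo_autG hΔ
  obtain ⟨A, hA⟩ := exists_rich₀ X.hO r
  obtain ⟨J, hJ⟩ := exists_J X hlo hA
  exact hno (hasHom_of (X.exists_hom' (contH_of (hbad X r A J hJ))))

end Pool.Agent.MP_f99268_lc
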