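import Pool.Agent.Lib.MP_f99268_lc_Y.CutFam
import Pool.Agent.Lib.MP_f99268_lc_X.T1
import Pool.Agent.Lib.MP_f99268_lc_X.TestA

/-!
# The sets of units have no cuts; the dichotomy (EQV)
-/

namespace Pool.Agent.MP_f99268_lc

open Equiv Classical

variable {D : Type} [Countable D] {X : Ctx D} {r : ℕ} {A : Finset D} {J : D → D → D}

/-- The sets `U(f)`. -/
def UU (X : Ctx D) (A : Finset D) (J : D → D → D) : Set (Set ({a // a ∈ A} → D)) :=
  {U | ∃ f, EE X f ∧ U = US X A J f}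

omit [Countable D] in
theorem image_inv_eq {G : Subgroup (Perm D)} {q : D → D} (hq : Emb G q) (A : Finset D) :
    ∃ k ∈ G, (∀ a ∈ A, k (q a) = a) ∧ (A.image q).image k = A := by
  obtain ⟨g, hg, h⟩ := hq A
  have h1 : ∀ a ∈ A, g⁻¹ (q a) = a := by
    intro a ha
    rw [h a ha]
    simp
  refine ⟨g⁻¹, G.inv_mem hg, h1, ?_⟩
  ext x
  simp only [Finset.mem_image]
  constructor
  · rintro ⟨_, ⟨a, ha, rfl⟩, rfl⟩
    rwa [h1 a ha]
  · intro hx
    exact ⟨q x, ⟨x, hx, rfl⟩, h1 x hx⟩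

/-- Copies in the position of `p|A` over `q|A = A` are in canonical position over `A`. -/
theorem exists_far_pos {G : Subgroup (Perm D)} {p q : D → D} (hp : Emb G p) (hq : Emb G q)
    (hpq : ∀ B : Finset D, CanU G ∅ (B.image q) p) (A : Finset D) :
    ∃ k ∈ G, (∀ a ∈ A, k (q a) = a) ∧ CanC G A A (fun a => k (p a)) := by
  obtain ⟨k, hk, h1, h2⟩ := image_inv_eq hq A
  refine ⟨k, hk, h1, ?_⟩
  have h3 : CanC G A (A.image q) (fun a : {a // a ∈ A} => p a) := ⟨p, hp, hpq A, fun _ => rfl⟩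
  have := h3.move hk
  rwa [h2] at this

/-- (CUT), one half. -/
theorem IsJ.exists_cut (hJ : IsJ X r A J) {p q : D → D} (hp : Emb X.G p) (hq : Emb X.G q)
    (hpq : ∀ B : Finset D, CanU X.G ∅ (B.image q) p)
    (hqp : ∀ B : Finset D, CanU X.G ∅ (B.image p) q) :
    ∃ S : Finset D, ∀ f, EE X f →
      (∀ e, CopyIn X.G A S e → Kap X.G A p q e (fun a => (a : D)) → e ∈ US X A J f) →
      ∃ e, CopyIn X.G A S e ∧ Kap X.G A p q (fun a => (a : D)) e ∧ e ∈ US X A J f := by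
  by_contra hcon
  push Not at hcon
  obtain ⟨f, hf, hcan, hPQ⟩ := hJ.exists_lim A
    (fun e => Kap X.G A p q e (fun a => (a : D))) (fun e => Kap X.G A p q (fun a => (a : D)) e)
    (by
      rintro β hβ e ⟨g, hg, h1, h2⟩
      refine ⟨β * g, X.G.mul_mem (st_le hβ) hg, fun a => congrArg β (h1 a), fun a => ?_⟩
      have := congrArg β (h2 a)
      rw [(mem_st.1 hβ).2 a a.2] at this
      exact this)
    (by
      rintro β hβ e ⟨g, hg, h1, h2⟩
      refine ⟨β * g, X.G.mul_mem (st_le hβ) hg, fun a => ?_, fun a => congrArg β (h2 a)⟩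
      have := congrArg β (h1 a)
      rw [(mem_st.1 hβ).2 a a.2] at this
      exact this)
    (by
      intro S
      obtain ⟨f, hf, h1, h2⟩ := hcon S
      exact ⟨f, hf, fun e he heS => ⟨fun hk => h1 e ⟨he, heS⟩ hk, fun hk => h2 e ⟨he, heS⟩ hk⟩⟩)
  obtain ⟨k, hk, hk1, hk2⟩ := exists_far_pos hp hq hpq A
  obtain ⟨k', hk', hk1', hk2'⟩ := exists_far_pos hq hp hqp A
  have h1 := (hPQ _ hk2.copy).1 ⟨k, hk, fun a => rfl, fun a => (hk1 a a.2).symm⟩
  have h2 := (hPQ _ hk2'.copy).2 ⟨k', hk', fun a => (hk1' a a.2).symm, fun a => rfl⟩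
  exact h2 ((hJ.far_iff hf hcan hk2').2 ((hJ.far_iff hf hcan hk2).1 h1))

/-- The units have no cuts. -/
theorem IsJ.exists_cutFam (hJ : IsJ X r A J) :
    ∃ p q B₁, CutFam X.G A (UU X A J) p q B₁ := by
  obtain ⟨p, q, hp, hq, hpq, hqp⟩ := exists_pq' X.hR X.hO
  obtain ⟨S₁, h₁⟩ := hJ.exists_cut hp hq hpq hqp
  obtain ⟨S₂, h₂⟩ := hJ.exists_cut hq hp hqp hpq
  have hsw : ∀ e e' : {a // a ∈ A} → D, Kap X.G A q p e e' ↔ Kap X.G A p q e' e := by
    intro e e'
    constructor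
    · rintro ⟨g, hg, h1, h2⟩
      exact ⟨g, hg, h2, h1⟩
    · rintro ⟨g, hg, h1, h2⟩
      exact ⟨g, hg, h2, h1⟩
  have s1 : S₁ ⊆ A ∪ (S₁ ∪ S₂) := Finset.subset_union_left.trans Finset.subset_union_right
  have s2 : S₂ ⊆ A ∪ (S₁ ∪ S₂) := Finset.subset_union_right.trans Finset.subset_union_right
  refine ⟨p, q, A ∪ (S₁ ∪ S₂), hp, ?_, ?_, Finset.subset_union_left, ?_, ?_⟩
  · intro g hg
    obtain ⟨k, hk, h⟩ := (hpq A).fin (fun a : {a // a ∈ A} => (a : D)) (fun a => g a)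
      ⟨g, by rwa [st_empty], fun a => rfl⟩
    refine ⟨k, st_le hk, fun a => (h a).symm, fun a => ?_⟩
    exact ((mem_st.1 hk).2 _ (Finset.mem_image_of_mem q a.2)).symm
  · rintro U ⟨f, hf, rfl⟩ h hh
    exact ⟨fun s t => f s (h t), hf.shift hh, rfl⟩
  · rintro U ⟨f, hf, rfl⟩ h
    obtain ⟨e, he, he2, he3⟩ := h₁ f hf (fun e he hk => h e (he.mono s1) hk)
    exact ⟨e, he.mono s1, he2, he3⟩
  · rintro U ⟨f, hf, rfl⟩ h
    obtain ⟨e, he, he2, he3⟩ := h₂ f hf (fun e he hk => h e (he.mono s2) ((hsw _ _).1 hk))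
    exact ⟨e, he.mono s2, (hsw _ _).1 he2, he3⟩

/-- The projection to the first variable. -/
theorem EE.fst : EE X (fun s _ => s) :=
  EE.of_can (X.hC.proj 2 0) (Can.proj X.G ∅ 0)

/-- The projection to the second variable. -/
theorem EE.snd : EE X (fun _ t => t) :=
  EE.of_can (X.hC.proj 2 1) (Can.proj X.G ∅ 1)

theorem IsJ.mem_fst (hJ : IsJ X r A J) {e : {a // a ∈ A} → D} (he : IsCopy X.G A e) :
    e ∈ US X A J (fun s _ => s) := by
  rw [hJ.can_iff (h := fun s _ => s) (X.hC.proj 2 0) (Can.proj X.G ∅ 0) he]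
  exact X.val_emb_proj (k := 1) (u := fun a => a) (c₀ := ∅) (c := ∅)
    (fun A => ⟨1, X.G.one_mem, fun _ _ => rfl⟩) (fun m x y h => h) 0

theorem IsJ.notMem_snd (hJ : IsJ X r A J) {e : {a // a ∈ A} → D} (he : IsCopy X.G A e) :
    e ∉ US X A J (fun _ t => t) := by
  rw [hJ.can_iff (h := fun _ t => t) (X.hC.proj 2 1) (Can.proj X.G ∅ 1) he]
  have := X.val_emb_proj (k := 1) (u := fun a => a) (c₀ := ∅) (c := ∅)
    (fun A => ⟨1, X.G.one_mem, fun _ _ => rfl⟩) (fun m x y h => h) 1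
  intro h
  have h2 : X.val 1 (bin fun _ t : D => t) = 1 := this
  rw [h] at h2
  exact absurd h2 (by decide)

/-- (EQV), without the normalisation. -/
theorem IsJ.eqv₀ (hJ : IsJ X r A J) (B : Finset D) :
    ∃ (S : Finset D) (g : D → D → D) (h : Perm D), EE X g ∧ h ∈ X.G ∧ (∀ b ∈ B, h b ∈ S) ∧
      (∀ e, CopyIn X.G A (B.image h) e → e ∉ US X A J g) ∧
      ∀ f, EE X f → (∀ e, CopyIn X.G A S e → e ∈ US X A J g → e ∈ US X A J f) →
        (∃ e, CopyIn X.G A (B.image h) e ∧ e ∈ US X A J f) →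
        ∀ e, CopyIn X.G A (B.image h) e → e ∈ US X A J f := by
  obtain ⟨p, q, B₁, hc⟩ := hJ.exists_cutFam
  obtain ⟨S, U, ⟨g, hg, rfl⟩, h, hh, hB, h1, h2⟩ := hc.eqv X.hR (by
    rintro U ⟨f, hf, rfl⟩ V ⟨f', hf', rfl⟩
    exact ⟨_, ⟨bmul f (bmul J f'), hf.mul ((EE.of_can hJ.mem hJ.can).mul hf'), rfl⟩,
      fun e he => hJ.mul hf hf' he⟩)
    ⟨_, ⟨_, EE.snd, rfl⟩, fun e he => hJ.notMem_snd he⟩
    ⟨_, ⟨_, EE.fst, rfl⟩, fun e he => hJ.mem_fst he⟩ B
  exact ⟨S, g, h, hg, hh, hB, h1, fun f hf hSf hex => h2 _ ⟨f, hf, rfl⟩ hSf hex⟩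

/-- The powers of `J g` applied to `J`. -/
def gpow (J g : D → D → D) : ℕ → D → D → D
  | 0 => J
  | n + 1 => bmul J (bmul g (gpow J g n))

theorem IsJ.gpow_EE (hJ : IsJ X r A J) {g : D → D → D} (hg : EE X g) (n : ℕ) :
    EE X (gpow J g n) := by
  induction n with
  | zero => exact EE.of_can hJ.mem hJ.can
  | succ n ih => exact (EE.of_can hJ.mem hJ.can).mul (hg.mul ih)

theorem IsJ.cls_gpow (hJ : IsJ X r A J) {g : D → D → D} (hg : EE X g)
    {e : {a // a ∈ A} → D} (he : IsCopy X.G A e) (n : ℕ) :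
    cls X.G (fam (gpow J g n) e) =
      (cls X.G (fam J (inc A)) * cls X.G (fam g e)) ^ n * cls X.G (fam J (inc A)) := by
  have hJE : EE X J := EE.of_can hJ.mem hJ.can
  induction n with
  | zero => rw [pow_zero, one_mul]; exact cls_copy hJ.mem hJ.can he
  | succ n ih =>
    have e1 : fam (gpow J g (n + 1)) e =
        fcomp (fam J e) (fcomp (fam g e) (fam (gpow J g n) e)) := rfl
    rw [e1, cls_mul (hJE.sc _ e) ((hg.sc _ e).comp ((hJ.gpow_EE hg n).sc _ e)),
      cls_mul (hg.sc _ e) ((hJ.gpow_EE hg n).sc _ e), ih, cls_copy hJ.mem hJ.can he, pow_succ']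
    simp only [mul_assoc]

theorem IsJ.pow_eq {M : Type*} [Monoid M] {j m : M} (hj : j * j = j) (n : ℕ) (hn : 1 ≤ n) :
    (j * m * j) ^ n = (j * m) ^ n * j := by
  induction n, hn using Nat.le_induction with
  | base => rw [pow_one, pow_one]
  | succ n _ ih =>
    rw [pow_succ, ih, pow_succ]
    calc (j * m) ^ n * j * (j * m * j) = (j * m) ^ n * ((j * j) * m) * j := by
          simp only [mul_assoc]
      _ = (j * m) ^ n * (j * m) * j := by rw [hj]

/-- (EQV): for every finite `B` there are a finite `S`, an operation `g` and an image `h B` of `B`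
in `S`, such that the copies inside `h B` are not units of `g`, such that `g(x, e a)` has the
types of `J(x, a)` for the units `e` of `g` in `S`, and such that every `f` which has all units of
`g` in `S` as units, and some copy inside `h B`, has all copies inside `h B` as units. -/
theorem IsJ.eqv (hJ : IsJ X r A J) (B : Finset D) :
    ∃ (S : Finset D) (g : D → D → D) (h : Perm D), EE X g ∧ h ∈ X.G ∧ (∀ b ∈ B, h b ∈ S) ∧
      (∀ e, CopyIn X.G A (B.image h) e → e ∉ US X A J g) ∧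
      (∀ e, CopyIn X.G A S e → e ∈ US X A J g → FEq X.G (fam g e) (fam J (inc A))) ∧
      ∀ f, EE X f → (∀ e, CopyIn X.G A S e → e ∈ US X A J g → e ∈ US X A J f) →
        (∃ e, CopyIn X.G A (B.image h) e ∧ e ∈ US X A J f) →
        ∀ e, CopyIn X.G A (B.image h) e → e ∈ US X A J f := by
  obtain ⟨S, g, h, hg, hh, hB, h1, h2⟩ := hJ.eqv₀ B
  have hJE : EE X J := EE.of_can hJ.mem hJ.can
  -- the exponents
  have hex : ∀ e : {a // a ∈ A} → D, ∃ n, 1 ≤ n ∧ (e ∈ US X A J g →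
      (cls X.G (fam J (inc A)) * cls X.G (fam g e) * cls X.G (fam J (inc A))) ^ n =
        cls X.G (fam J (inc A))) := by
    intro e
    by_cases he : e ∈ US X A J g
    · obtain ⟨n, hn, h⟩ := he
      exact ⟨n, hn, fun _ => h⟩
    · exact ⟨1, le_rfl, fun h => absurd h he⟩
  choose n hn hne using hex
  let Cs : Finset ({a // a ∈ A} → D) := Fintype.piFinset fun _ => S
  let N : ℕ := ∏ e ∈ Cs, n e
  have hN : 1 ≤ N := Nat.one_le_iff_ne_zero.2 (Finset.prod_ne_zero_iff.2 fun e _ =>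
    Nat.one_le_iff_ne_zero.1 (hn e))
  have hjk : ∀ k : ℕ, 1 ≤ k → cls X.G (fam J (inc A)) ^ k = cls X.G (fam J (inc A)) := by
    intro k hk
    induction k, hk using Nat.le_induction with
    | base => exact pow_one _
    | succ k _ ih => rw [pow_succ, ih, hJ.idem]
  have key1 : ∀ e, CopyIn X.G A S e → e ∈ US X A J g →
      cls X.G (fam (gpow J g N) e) = cls X.G (fam J (inc A)) := by
    intro e he heg
    rw [hJ.cls_gpow hg he.1, ← IsJ.pow_eq hJ.idem N hN]
    obtain ⟨k, hk⟩ : n e ∣ N := Finset.dvd_prod_of_mem n (Fintype.mem_piFinset.2 he.2)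
    have hk1 : 1 ≤ k := by
      rcases Nat.eq_zero_or_pos k with h0 | h0
      · rw [h0, mul_zero] at hk
        omega
      · exact h0
    rw [hk, pow_mul, hne e heg, hjk k hk1]
  have key2 : ∀ e, IsCopy X.G A e → e ∈ US X A J (gpow J g N) → e ∈ US X A J g := by
    rintro e he ⟨m, hm, hem⟩
    refine ⟨N * m, Nat.mul_pos hN hm, ?_⟩
    rw [hJ.cls_gpow hg he, ← IsJ.pow_eq hJ.idem N hN] at hem
    have h3 : cls X.G (fam J (inc A)) * (cls X.G (fam J (inc A)) * cls X.G (fam g e) *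
        cls X.G (fam J (inc A))) ^ N * cls X.G (fam J (inc A)) =
        (cls X.G (fam J (inc A)) * cls X.G (fam g e) * cls X.G (fam J (inc A))) ^ N := by
      rw [IsJ.pow_eq hJ.idem N hN]
      obtain ⟨N', hN'⟩ := Nat.exists_eq_add_of_le' hN
      rw [hN', pow_succ']
      calc cls X.G (fam J (inc A)) * (cls X.G (fam J (inc A)) * cls X.G (fam g e) *
            (cls X.G (fam J (inc A)) * cls X.G (fam g e)) ^ N' * cls X.G (fam J (inc A))) *
            cls X.G (fam J (inc A)) =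
          (cls X.G (fam J (inc A)) * cls X.G (fam J (inc A))) * cls X.G (fam g e) *
            (cls X.G (fam J (inc A)) * cls X.G (fam g e)) ^ N' * (cls X.G (fam J (inc A)) *
            cls X.G (fam J (inc A))) := by simp only [mul_assoc]
        _ = _ := by rw [hJ.idem]
    rw [h3, ← pow_mul] at hem
    exact hem
  have key3 : ∀ e, CopyIn X.G A S e → e ∈ US X A J g → e ∈ US X A J (gpow J g N) := by
    intro e he heg
    refine ⟨1, le_rfl, ?_⟩
    rw [pow_one, key1 e he heg, hJ.idem, hJ.idem]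
  refine ⟨S, gpow J g N, h, hJ.gpow_EE hg N, hh, hB, ?_, ?_, ?_⟩
  · intro e he he2
    exact h1 e he (key2 e he.1 he2)
  · intro e he he2
    exact (cls_eq ((hJ.gpow_EE hg N).sc _ e) (hJE.sc _ _)).1 (key1 e he (key2 e he.1 he2))
  · intro f hf hSf hex
    exact h2 f hf (fun e he heg => hSf e he (key3 e he heg)) hex

end Pool.Agent.MP_f99268_lc
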