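import Pool.Agent.Lib.MP_f99268_lc.Canon

/-!
# Families of sets of copies without cuts (abstract form of STAR and EQV)
-/

namespace Pool.Agent.MP_f99268_lc

open Equiv Classical

variable {D : Type}

/-- `e` is a copy of `A` inside `S`. -/
def CopyIn (G : Subgroup (Perm D)) (A S : Finset D) (e : {a // a ∈ A} → D) : Prop :=
  (∃ g ∈ G, ∀ a, e a = g a) ∧ ∀ a, e a ∈ S

theorem CopyIn.mono {G : Subgroup (Perm D)} {A S S' : Finset D} (h : S ⊆ S')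
    {e : {a // a ∈ A} → D} (he : CopyIn G A S e) : CopyIn G A S' e :=
  ⟨he.1, fun a => h (he.2 a)⟩

theorem CopyIn.move {G : Subgroup (Perm D)} {A S S' : Finset D} {g : Perm D} (hg : g ∈ G)
    {e : {a // a ∈ A} → D} (he : CopyIn G A S e) (hS : ∀ b ∈ S, g b ∈ S') :
    CopyIn G A S' (fun a => g (e a)) := by
  obtain ⟨⟨g', hg', h⟩, h2⟩ := he
  exact ⟨⟨g * g', G.mul_mem hg hg', fun a => congrArg g (h a)⟩, fun a => hS _ (h2 a)⟩

/-- The pair `e₁`, `e₂` of copies is in the position of `p|A`, `q|A`. -/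
def Kap (G : Subgroup (Perm D)) (A : Finset D) (p q : D → D) (e₁ e₂ : {a // a ∈ A} → D) : Prop :=
  ∃ g ∈ G, (∀ a, e₁ a = g (p a)) ∧ ∀ a, e₂ a = g (q a)

/-- A family of sets of copies of `A` that is invariant, and whose members do not cut a copy in
two parts according to the position `p`, `q`, already inside the finite set `B₁`. -/
structure CutFam (G : Subgroup (Perm D)) (A : Finset D) (𝓤 : Set (Set ({a // a ∈ A} → D)))
    (p q : D → D) (B₁ : Finset D) : Prop where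
  embp : Emb G p
  pos : ∀ g ∈ G, Kap G A p q (fun a => p (g a)) (fun a => q a)
  shift : ∀ U ∈ 𝓤, ∀ h ∈ G, {e : {a // a ∈ A} → D | (fun a => h (e a)) ∈ U} ∈ 𝓤
  sub : A ⊆ B₁
  cut₁ : ∀ U ∈ 𝓤, (∀ e, CopyIn G A B₁ e → Kap G A p q e (fun a => a) → e ∈ U) →
    ∃ e, CopyIn G A B₁ e ∧ Kap G A p q (fun a => a) e ∧ e ∈ U
  cut₂ : ∀ U ∈ 𝓤, (∀ e, CopyIn G A B₁ e → Kap G A p q (fun a => a) e → e ∈ U) →
    ∃ e, CopyIn G A B₁ e ∧ Kap G A p q e (fun a => a) ∧ e ∈ U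

/-- The function `ρ` has cuts in the family. -/
def Cuts (G : Subgroup (Perm D)) (A : Finset D) (𝓤 : Set (Set ({a // a ∈ A} → D)))
    (S : Finset D) (ρ : ({a // a ∈ A} → D) → ℕ) : Prop :=
  ∀ o, CopyIn G A S o → ∃ U ∈ 𝓤,
    (∀ z, CopyIn G A S z → (ρ o < ρ z → z ∈ U) ∧ (ρ z < ρ o → z ∉ U)) ∨
    ∀ z, CopyIn G A S z → (ρ z < ρ o → z ∈ U) ∧ (ρ o < ρ z → z ∉ U)

/-- (STAR) -/
theorem CutFam.star {G : Subgroup (Perm D)} (hR : FR G Bool) {A : Finset D}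
    {𝓤 : Set (Set ({a // a ∈ A} → D))} {p q : D → D} {B₁ : Finset D}
    (h𝓤 : CutFam G A 𝓤 p q B₁) (B : Finset D) :
    ∃ S : Finset D, ∀ ρ : ({a // a ∈ A} → D) → ℕ, Cuts G A 𝓤 S ρ →
      ∃ h ∈ G, (∀ b ∈ B, h b ∈ S) ∧
        ∀ e e', CopyIn G A (B.image h) e → CopyIn G A (B.image h) e' → ρ e = ρ e' := by
  obtain ⟨S, hS⟩ := hR.of_bool Ordering (A.image p ∪ A.image q)
    (B₁ ∪ B.image p ∪ A.image q)
  refine ⟨S, fun ρ hρ => ?_⟩
  have hp : ∀ a : {a // a ∈ A}, p a ∈ A.image p ∪ A.image q := fun a =>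
    Finset.mem_union_left _ (Finset.mem_image_of_mem _ a.2)
  have hq : ∀ a : {a // a ∈ A}, q a ∈ A.image p ∪ A.image q := fun a =>
    Finset.mem_union_right _ (Finset.mem_image_of_mem _ a.2)
  obtain ⟨h, hh, hhS, hχ⟩ := hS (fun φ =>
    compare (ρ fun a : {a // a ∈ A} => φ ⟨p a, hp a⟩) (ρ fun a => φ ⟨q a, hq a⟩))
  -- pairs in the position inside `P` have the same colour
  have key : ∀ e₁ e₂ e₁' e₂' : {a // a ∈ A} → D,
      Kap G A p q e₁ e₂ → Kap G A p q e₁' e₂' →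
      (∀ a, e₁ a ∈ B₁ ∪ B.image p ∪ A.image q) → (∀ a, e₂ a ∈ B₁ ∪ B.image p ∪ A.image q) →
      (∀ a, e₁' a ∈ B₁ ∪ B.image p ∪ A.image q) → (∀ a, e₂' a ∈ B₁ ∪ B.image p ∪ A.image q) →
      compare (ρ fun a => h (e₁ a)) (ρ fun a => h (e₂ a)) =
        compare (ρ fun a => h (e₁' a)) (ρ fun a => h (e₂' a)) := by
    rintro e₁ e₂ e₁' e₂' ⟨g, hg, h1, h2⟩ ⟨g', hg', h1', h2'⟩ m1 m2 m1' m2'
    have := hχ (h * g) (G.mul_mem hh hg) (h * g') (G.mul_mem hh hg') (by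
      intro x hx
      rcases Finset.mem_union.1 hx with hx | hx
      · obtain ⟨a, ha, rfl⟩ := Finset.mem_image.1 hx
        exact ⟨e₁ ⟨a, ha⟩, m1 _, by rw [h1 ⟨a, ha⟩]; rfl⟩
      · obtain ⟨a, ha, rfl⟩ := Finset.mem_image.1 hx
        exact ⟨e₂ ⟨a, ha⟩, m2 _, by rw [h2 ⟨a, ha⟩]; rfl⟩) (by
      intro x hx
      rcases Finset.mem_union.1 hx with hx | hx
      · obtain ⟨a, ha, rfl⟩ := Finset.mem_image.1 hx
        exact ⟨e₁' ⟨a, ha⟩, m1' _, by rw [h1' ⟨a, ha⟩]; rfl⟩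
      · obtain ⟨a, ha, rfl⟩ := Finset.mem_image.1 hx
        exact ⟨e₂' ⟨a, ha⟩, m2' _, by rw [h2' ⟨a, ha⟩]; rfl⟩)
    have r1 : (fun a : {a // a ∈ A} => (h * g) (p a)) = fun a => h (e₁ a) := by
      funext a; rw [h1]; rfl
    have r2 : (fun a : {a // a ∈ A} => (h * g) (q a)) = fun a => h (e₂ a) := by
      funext a; rw [h2]; rfl
    have r3 : (fun a : {a // a ∈ A} => (h * g') (p a)) = fun a => h (e₁' a) := by
      funext a; rw [h1']; rfl
    have r4 : (fun a : {a // a ∈ A} => (h * g') (q a)) = fun a => h (e₂' a) := by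
      funext a; rw [h2']; rfl
    simp only [r1, r2, r3, r4] at this
    exact this
  have hB₁ : ∀ b ∈ B₁, h b ∈ S := fun b hb =>
    hhS b (Finset.mem_union_left _ (Finset.mem_union_left _ hb))
  have mB₁ : ∀ e : {a // a ∈ A} → D, CopyIn G A B₁ e →
      ∀ a, e a ∈ B₁ ∪ B.image p ∪ A.image q := fun e he a =>
    Finset.mem_union_left _ (Finset.mem_union_left _ (he.2 a))
  have mA : ∀ a : {a // a ∈ A}, (a : D) ∈ B₁ ∪ B.image p ∪ A.image q := fun a =>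
    Finset.mem_union_left _ (Finset.mem_union_left _ (h𝓤.sub a.2))
  have mq : ∀ a : {a // a ∈ A}, q a ∈ B₁ ∪ B.image p ∪ A.image q := fun a =>
    Finset.mem_union_right _ (Finset.mem_image_of_mem _ a.2)
  -- the colour cannot be `lt` or `gt`
  have hcol : ∀ e₁ e₂ : {a // a ∈ A} → D, Kap G A p q e₁ e₂ →
      (∀ a, e₁ a ∈ B₁ ∪ B.image p ∪ A.image q) → (∀ a, e₂ a ∈ B₁ ∪ B.image p ∪ A.image q) →
      ρ (fun a => h (e₁ a)) = ρ (fun a => h (e₂ a)) := by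
    intro e₁ e₂ hk m1 m2
    obtain ⟨U, hU, hU'⟩ := hρ (fun a => h a)
      ⟨⟨h, hh, fun _ => rfl⟩, fun a => hB₁ _ (h𝓤.sub a.2)⟩
    have hsh := h𝓤.shift U hU h hh
    have hcp : ∀ e, CopyIn G A B₁ e → CopyIn G A S (fun a => h (e a)) := fun e he =>
      he.move hh hB₁
    by_contra hne
    rcases lt_or_gt_of_ne hne with hlt | hgt
    · -- all pairs are increasing
      have hall : ∀ e₁' e₂' : {a // a ∈ A} → D, Kap G A p q e₁' e₂' →
          (∀ a, e₁' a ∈ B₁ ∪ B.image p ∪ A.image q) →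
          (∀ a, e₂' a ∈ B₁ ∪ B.image p ∪ A.image q) →
          ρ (fun a => h (e₁' a)) < ρ (fun a => h (e₂' a)) := by
        intro e₁' e₂' hk' m1' m2'
        rw [← compare_lt_iff_lt, ← key e₁ e₂ e₁' e₂' hk hk' m1 m2 m1' m2', compare_lt_iff_lt]
        exact hlt
      rcases hU' with hU' | hU'
      · obtain ⟨e, he, he2, he3⟩ := h𝓤.cut₂ _ hsh (fun e he hk' =>
          (hU' _ (hcp e he)).1 (hall _ _ hk' mA (mB₁ e he)))
        exact (hU' _ (hcp e he)).2 (hall _ _ he2 (mB₁ e he) mA) he3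
      · obtain ⟨e, he, he2, he3⟩ := h𝓤.cut₁ _ hsh (fun e he hk' =>
          (hU' _ (hcp e he)).1 (hall _ _ hk' (mB₁ e he) mA))
        exact (hU' _ (hcp e he)).2 (hall _ _ he2 mA (mB₁ e he)) he3
    · have hall : ∀ e₁' e₂' : {a // a ∈ A} → D, Kap G A p q e₁' e₂' →
          (∀ a, e₁' a ∈ B₁ ∪ B.image p ∪ A.image q) →
          (∀ a, e₂' a ∈ B₁ ∪ B.image p ∪ A.image q) →
          ρ (fun a => h (e₂' a)) < ρ (fun a => h (e₁' a)) := by
        intro e₁' e₂' hk' m1' m2'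
        rw [← compare_gt_iff_gt, ← key e₁ e₂ e₁' e₂' hk hk' m1 m2 m1' m2', compare_gt_iff_gt]
        exact hgt
      rcases hU' with hU' | hU'
      · obtain ⟨e, he, he2, he3⟩ := h𝓤.cut₁ _ hsh (fun e he hk' =>
          (hU' _ (hcp e he)).1 (hall _ _ hk' (mB₁ e he) mA))
        exact (hU' _ (hcp e he)).2 (hall _ _ he2 mA (mB₁ e he)) he3
      · obtain ⟨e, he, he2, he3⟩ := h𝓤.cut₂ _ hsh (fun e he hk' =>
          (hU' _ (hcp e he)).1 (hall _ _ hk' mA (mB₁ e he)))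
        exact (hU' _ (hcp e he)).2 (hall _ _ he2 (mB₁ e he) mA) he3
  -- the set `h p B`
  obtain ⟨g, hg, hgB⟩ := h𝓤.embp B
  refine ⟨h * g, G.mul_mem hh hg, fun b hb => ?_, ?_⟩
  · rw [Perm.mul_apply, ← hgB b hb]
    exact hhS _ (Finset.mem_union_left _ (Finset.mem_union_right _
      (Finset.mem_image_of_mem _ hb)))
  · have hcon : ∀ e, CopyIn G A (B.image (h * g)) e → ρ e = ρ (fun a => h (q a)) := by
      rintro e ⟨⟨k, hk, hek⟩, he2⟩
      -- `e = h g e₀` with `e₀ = g⁻¹ h⁻¹ e` inside `B`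
      have h0 : ∀ a, g⁻¹ (h⁻¹ (e a)) ∈ B := by
        intro a
        obtain ⟨b, hb, hb2⟩ := Finset.mem_image.1 (he2 a)
        rw [← hb2]
        simpa using hb
      have h1 : ∀ a, h⁻¹ (e a) = p (g⁻¹ (h⁻¹ (e a))) := by
        intro a
        rw [hgB _ (h0 a)]
        simp
      have h2 := h𝓤.pos (g⁻¹ * h⁻¹ * k) (G.mul_mem (G.mul_mem (G.inv_mem hg) (G.inv_mem hh)) hk)
      have h3 : (fun a : {a // a ∈ A} => p ((g⁻¹ * h⁻¹ * k) a)) = fun a => h⁻¹ (e a) := by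
        funext a
        rw [h1 a, hek a]
        rfl
      rw [h3] at h2
      have := hcol _ _ h2 (fun a => by
        rw [h1 a]
        exact Finset.mem_union_left _ (Finset.mem_union_right _
          (Finset.mem_image_of_mem _ (h0 a)))) mq
      simpa using this
    intro e e' he he'
    rw [hcon e he, hcon e' he']

/-- (EQV) -/
theorem CutFam.eqv {G : Subgroup (Perm D)} (hR : FR G Bool) {A : Finset D}
    {𝓤 : Set (Set ({a // a ∈ A} → D))} {p q : D → D} {B₁ : Finset D}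
    (h𝓤 : CutFam G A 𝓤 p q B₁)
    (hinter : ∀ U ∈ 𝓤, ∀ V ∈ 𝓤, ∃ W ∈ 𝓤, ∀ e, (∃ g ∈ G, ∀ a : {a // a ∈ A}, e a = g a) →
      (e ∈ W ↔ e ∈ U ∧ e ∈ V))
    (hbot : ∃ U ∈ 𝓤, ∀ e, (∃ g ∈ G, ∀ a : {a // a ∈ A}, e a = g a) → e ∉ U)
    (htop : ∃ U ∈ 𝓤, ∀ e, (∃ g ∈ G, ∀ a : {a // a ∈ A}, e a = g a) → e ∈ U)
    (B : Finset D) :
    ∃ S : Finset D, ∃ U ∈ 𝓤, ∃ h ∈ G, (∀ b ∈ B, h b ∈ S) ∧
      (∀ e, CopyIn G A (B.image h) e → e ∉ U) ∧
      ∀ V ∈ 𝓤, (∀ e, CopyIn G A S e → e ∈ U → e ∈ V) →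
        (∃ e, CopyIn G A (B.image h) e ∧ e ∈ V) → ∀ e, CopyIn G A (B.image h) e → e ∈ V := by
  obtain ⟨S, hS⟩ := h𝓤.star hR B
  refine ⟨S, ?_⟩
  -- the finite set of copies inside `S`
  let Cs : Finset ({a // a ∈ A} → D) := (Fintype.piFinset fun _ => S).filter
    (fun e => CopyIn G A S e)
  have hCs : ∀ e, e ∈ Cs ↔ CopyIn G A S e := by
    intro e
    simp only [Cs, Finset.mem_filter, Fintype.mem_piFinset]
    exact ⟨fun h => h.2, fun h => ⟨h.2, h⟩⟩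
  let L : Set (Finset ({a // a ∈ A} → D)) :=
    {T | T ⊆ Cs ∧ ∃ U ∈ 𝓤, ∀ e ∈ Cs, e ∈ T ↔ e ∈ U}
  have hLinter : ∀ T ∈ L, ∀ T' ∈ L, T ∩ T' ∈ L := by
    rintro T ⟨hT, U, hU, hTU⟩ T' ⟨hT', U', hU', hTU'⟩
    obtain ⟨W, hW, h⟩ := hinter U hU U' hU'
    refine ⟨Finset.inter_subset_left.trans hT, W, hW, fun e he => ?_⟩
    rw [h e ((hCs e).1 he).1, Finset.mem_inter, hTU e he, hTU' e he]
  have hLbot : ∅ ∈ L := by
    obtain ⟨U, hU, h⟩ := hbot
    refine ⟨Finset.empty_subset _, U, hU, fun e he => ?_⟩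
    simp only [Finset.notMem_empty, false_iff]
    exact h e ((hCs e).1 he).1
  have hLtop : Cs ∈ L := by
    obtain ⟨U, hU, h⟩ := htop
    refine ⟨subset_rfl, U, hU, fun e he => ?_⟩
    exact ⟨fun _ => h e ((hCs e).1 he).1, fun _ => he⟩
  -- a maximal chain
  obtain ⟨c, hc1, hc2⟩ : ∃ c : Set L, IsMaxChain (fun T T' : L => T.1 ⊆ T'.1) c ∧ True :=
    ⟨_, maxChain_spec, trivial⟩
  have hmax : ∀ T : L, (∀ T' ∈ c, T.1 ⊆ T'.1 ∨ T'.1 ⊆ T.1) → T ∈ c := by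
    intro T hT
    have h1 : IsChain (fun T T' : L => T.1 ⊆ T'.1) (insert T c) :=
      hc1.1.insert (fun T' hT' _ => hT T' hT')
    have h2 := hc1.2 h1 (Set.subset_insert _ _)
    rw [h2]
    exact Set.mem_insert _ _
  have htot : ∀ T ∈ c, ∀ T' ∈ c, T.1 ⊆ T'.1 ∨ T'.1 ⊆ T.1 := by
    intro T hT T' hT'
    by_cases h : T = T'
    · exact Or.inl (by rw [h])
    · exact hc1.1 hT hT' h
  have hctop : (⟨Cs, hLtop⟩ : L) ∈ c := hmax _ (fun T' _ => Or.inr T'.2.1)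
  have hcbot : (⟨∅, hLbot⟩ : L) ∈ c := hmax _ (fun T' _ => Or.inl (Finset.empty_subset _))
  -- the least member that contains `z`
  have hT : ∀ z ∈ Cs, ∃ T ∈ c, z ∈ T.1 ∧ ∀ T' ∈ c, z ∈ T'.1 → T.1 ⊆ T'.1 := by
    intro z hz
    obtain ⟨T, ⟨hTc, hzT⟩, hTmin⟩ := Set.exists_min_image {T : L | T ∈ c ∧ z ∈ T.1}
      (fun T => T.1.card) (Set.Finite.subset (Set.finite_univ_iff.2 (by
        apply Finite.of_injective (fun T : L => (⟨T.1, Finset.mem_powerset.2 T.2.1⟩ :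
          {T // T ∈ Cs.powerset}))
        intro T T' h
        exact Subtype.ext (congrArg (fun t => t.1) h))) (Set.subset_univ _)) ⟨_, hctop, hz⟩
    refine ⟨T, hTc, hzT, fun T' hT' hz' => ?_⟩
    rcases htot T hTc T' hT' with h | h
    · exact h
    · exact (Finset.eq_of_subset_of_card_le h (hTmin T' ⟨hT', hz'⟩)).symm.subset
  have : Nonempty L := ⟨⟨∅, hLbot⟩⟩
  choose! T hTc hzT hTmin using hT
  let ρ : ({a // a ∈ A} → D) → ℕ := fun z => (T z).1.card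
  have hρ1 : ∀ o ∈ Cs, ∀ z ∈ Cs, ρ z ≤ ρ o ↔ z ∈ (T o).1 := by
    intro o ho z hz
    constructor
    · intro h
      rcases htot _ (hTc z hz) _ (hTc o ho) with h' | h'
      · exact h' (hzT z hz)
      · rw [Finset.eq_of_subset_of_card_le h' h]
        exact hzT z hz
    · intro h
      exact Finset.card_le_card (hTmin z hz _ (hTc o ho) h)
  have hcuts : Cuts G A 𝓤 S ρ := by
    intro o ho
    have ho' := (hCs o).2 ho
    obtain ⟨U, hU, hUT⟩ := (T o).2.2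
    refine ⟨U, hU, Or.inr fun z hz => ⟨fun h => ?_, fun h => ?_⟩⟩
    · rw [← hUT z ((hCs z).2 hz), ← hρ1 o ho' z ((hCs z).2 hz)]
      exact h.le
    · rw [← hUT z ((hCs z).2 hz), ← hρ1 o ho' z ((hCs z).2 hz)]
      exact h.not_ge
  obtain ⟨h, hh, hhB, hconst⟩ := hS ρ hcuts
  have hBS : ∀ e, CopyIn G A (B.image h) e → e ∈ Cs := by
    intro e he
    refine (hCs e).2 (he.mono ?_)
    intro x hx
    obtain ⟨b, hb, rfl⟩ := Finset.mem_image.1 hx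
    exact hhB b hb
  by_cases hex : ∃ z, CopyIn G A (B.image h) z
  swap
  · obtain ⟨U, hU, hU2⟩ := hbot
    exact ⟨U, hU, h, hh, hhB, fun e he => (hex ⟨e, he⟩).elim,
      fun V hV _ _ e he => (hex ⟨e, he⟩).elim⟩
  obtain ⟨z, hz⟩ := hex
  have hzCs := hBS z hz
  -- the largest member that does not contain `z`
  obtain ⟨T', ⟨hT'c, hzT'⟩, hT'max⟩ := Set.exists_max_image {T' : L | T' ∈ c ∧ z ∉ T'.1}
    (fun T => T.1.card) (Set.Finite.subset (Set.finite_univ_iff.2 (by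
      apply Finite.of_injective (fun T : L => (⟨T.1, Finset.mem_powerset.2 T.2.1⟩ :
        {T // T ∈ Cs.powerset}))
      intro T T' h
      exact Subtype.ext (congrArg (fun t => t.1) h))) (Set.subset_univ _))
      ⟨_, hcbot, Finset.notMem_empty _⟩
  have hT'2 : ∀ T'' ∈ c, z ∉ T''.1 → T''.1 ⊆ T'.1 := by
    intro T'' h1 h2
    rcases htot T' hT'c T'' h1 with h' | h'
    · exact (Finset.eq_of_subset_of_card_le h' (hT'max T'' ⟨h1, h2⟩)).symm.subset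
    · exact h'
  have hTT' : ∀ e, CopyIn G A (B.image h) e → (T z).1 ⊆ (T e).1 := by
    intro e he
    refine hTmin z hzCs _ (hTc e (hBS e he)) ?_
    rw [← hρ1 e (hBS e he) z hzCs]
    exact (hconst z e hz he).le
  have hTT : ∀ e, CopyIn G A (B.image h) e → e ∈ (T z).1 := by
    intro e he
    rw [← hρ1 z hzCs e (hBS e he)]
    exact (hconst e z he hz).le
  obtain ⟨U, hU, hUT'⟩ := T'.2.2
  refine ⟨U, hU, h, hh, hhB, ?_, ?_⟩
  · intro e he heU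
    rw [← hUT' e (hBS e he)] at heU
    exact hzT' (hTmin e (hBS e he) T' hT'c heU (hTT' e he (hzT z hzCs)))
  · intro V hV hUV ⟨e₀, he₀, he₀V⟩ e he
    -- the trace of `V` on `T z`
    let VT : Finset ({a // a ∈ A} → D) := Cs.filter (fun e => e ∈ V)
    have hVT : VT ∈ L := ⟨Finset.filter_subset _ _, V, hV, fun e he => by
      simp only [VT, Finset.mem_filter]
      exact ⟨fun h => h.2, fun h => ⟨he, h⟩⟩⟩
    let W : L := ⟨VT ∩ (T z).1, hLinter _ hVT _ (T z).2⟩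
    have hT'W : T'.1 ⊆ W.1 := by
      intro x hx
      have hxCs := T'.2.1 hx
      refine Finset.mem_inter.2 ⟨Finset.mem_filter.2 ⟨hxCs, ?_⟩, ?_⟩
      · exact hUV x ((hCs x).1 hxCs) ((hUT' x hxCs).1 hx)
      · rcases htot T' hT'c _ (hTc z hzCs) with h' | h'
        · exact h' hx
        · exact absurd (h' (hzT z hzCs)) hzT'
    have hW : W ∈ c := by
      apply hmax
      intro T'' hT''
      by_cases hzT'' : z ∈ T''.1
      · exact Or.inl (Finset.inter_subset_right.trans (hTmin z hzCs T'' hT'' hzT''))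
      · exact Or.inr ((hT'2 T'' hT'' hzT'').trans hT'W)
    have he₀W : e₀ ∈ W.1 := Finset.mem_inter.2
      ⟨Finset.mem_filter.2 ⟨hBS e₀ he₀, he₀V⟩, hTT e₀ he₀⟩
    have h1 : (T e₀).1 ⊆ W.1 := hTmin e₀ (hBS e₀ he₀) W hW he₀W
    have h2 : e ∈ (T e₀).1 := hTT' e₀ he₀ (hTT e he)
    exact (Finset.mem_filter.1 (Finset.mem_inter.1 (h1 h2)).1).2

end Pool.Agent.MP_f99268_lc
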