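import Pool.Agent.Lib.MP_f99268_lc.Value

/-!
# Limits of families of functions, modulo an oligomorphic group
-/

namespace Pool.Agent.MP_f99268_lc

open Equiv Classical Filter

variable {D : Type}

/-- A finite cover has a member that belongs to the ultrafilter. -/
theorem uf_exists_mem {α : Type*} (T : Set α) (hT : T.Finite) (P : Finset D → α → Prop)
    (h : ∀ᶠ c in (uf D : Filter (Finset D)), ∃ a ∈ T, P c a) :
    ∃ a ∈ T, ∀ᶠ c in (uf D : Filter (Finset D)), P c a := by
  by_contra hcon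
  push Not at hcon
  have h1 : ∀ a ∈ T, ∀ᶠ c in (uf D : Filter (Finset D)), ¬ P c a := by
    exact hcon
  have h2 : ∀ᶠ c in (uf D : Filter (Finset D)), ∀ a ∈ T, ¬ P c a :=
    (eventually_all_finite hT).2 h1
  obtain ⟨c, ⟨a, ha, hc⟩, hc2⟩ := (h.and h2).exists
  exact hc2 a ha hc

/-- The limit along the ultrafilter, modulo `H`. -/
theorem ulim {X : Type} [Countable X] {H : Subgroup (Perm D)} (hH : Olig H)
    (F : Finset D → X → D) :
    ∃ F₀ : X → D, ∀ U : Finset X, ∀ᶠ B in (uf D : Filter (Finset D)),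
      ∃ η ∈ H, ∀ x ∈ U, F₀ x = η (F B x) := by
  obtain ⟨S, hS1, hS2⟩ := exists_exhaustion X
  obtain ⟨F₀, h⟩ := compactness S hS1
    (fun x => by
      obtain ⟨n, hn⟩ := hS2 {x}
      exact ⟨n, hn (Finset.mem_singleton_self x)⟩) H hH
    (fun n f => ∀ᶠ B in (uf D : Filter (Finset D)), ∃ η ∈ H, ∀ x ∈ S n, f x = η (F B x))
    (fun n f f' hff' h => h.mono (fun B ⟨η, hη, h⟩ => ⟨η, hη, fun x hx => by
      rw [← hff' x hx]
      exact h x hx⟩))
    (fun n f h => h.mono (fun B ⟨η, hη, h⟩ => ⟨η, hη, fun x hx => h x (hS1 n hx)⟩))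
    (fun n f k hk h => h.mono (fun B ⟨η, hη, h⟩ => ⟨k * η, H.mul_mem hk hη, fun x hx => by
      show k (f x) = k (η (F B x))
      rw [h x hx]⟩))
    (fun n => by
      obtain ⟨T, hT, hT2⟩ := hH.finite ∅ {x // x ∈ S n}
      obtain ⟨t, ht, h⟩ := uf_exists_mem T hT
        (fun B t => ∃ g ∈ H, ∀ x : {x // x ∈ S n}, g (F B x) = t x)
        (Eventually.of_forall fun B => by
          obtain ⟨g, hg, hgT⟩ := hT2 (fun x : {x // x ∈ S n} => F B x)
          exact ⟨_, hgT, g, st_le hg, fun x => rfl⟩)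
      by_cases hX : Nonempty X
      · obtain ⟨x0⟩ := hX
        refine ⟨fun x => if hx : x ∈ S n then t ⟨x, hx⟩ else F ∅ x0, h.mono ?_⟩
        rintro B ⟨g, hg, hB⟩
        refine ⟨g, hg, fun x hx => ?_⟩
        show (if hx : x ∈ S n then t ⟨x, hx⟩ else F ∅ x0) = g (F B x)
        rw [dif_pos hx]
        exact (hB ⟨x, hx⟩).symm
      · refine ⟨fun x => (hX ⟨x⟩).elim, h.mono ?_⟩
        rintro B ⟨g, hg, hB⟩
        exact ⟨g, hg, fun x hx => (hX ⟨x⟩).elim⟩)
  refine ⟨F₀, fun U => ?_⟩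
  obtain ⟨n, hn⟩ := hS2 U
  exact (h n).mono (fun B ⟨η, hη, h⟩ => ⟨η, hη, fun x hx => h x (hn hx)⟩)

/-- An invariant position of two copies of the whole structure. -/
theorem exists_pair [Countable D] {G : Subgroup (Perm D)} (hR : FR G Bool) (hO : Olig G) :
    ∃ u₁ u₂ : D → D, (∀ A : Finset D, ∃ β₁ ∈ G, ∃ β₂ ∈ G, ∀ a ∈ A, u₁ a = β₁ a ∧ u₂ a = β₂ a) ∧
      ∀ (m : ℕ) (x y x' y' : Fin m → D), Orb G ∅ x x' → Orb G ∅ y y' →
        Orb G ∅ (fun il : Bool × Fin m => cond il.1 (u₁ (x il.2)) (u₂ (y il.2)))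
          (fun il : Bool × Fin m => cond il.1 (u₁ (x' il.2)) (u₂ (y' il.2))) := by
  obtain ⟨K, h1, h2⟩ := canonisation hR hO ∅ ∅ Bool 2 (fun i x => cond i (x 0) (x 1))
  by_cases hD : Nonempty D
  swap
  · refine ⟨id, id, fun A => ⟨1, G.one_mem, 1, G.one_mem, fun a _ => (hD ⟨a⟩).elim⟩, ?_⟩
    intro m x y x' y' _ _
    exact ⟨1, Subgroup.one_mem _, fun i => (hD ⟨x i.2⟩).elim⟩
  obtain ⟨d⟩ := hD
  have hd1 : ∀ a b, K true ![a, b] = K true ![a, d] := by
    intro a b
    obtain ⟨β, hβ, η, hη, h⟩ := h1 {a, b, d}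
    rw [h true ![a, b] (fun j => by fin_cases j <;> simp),
      h true ![a, d] (fun j => by fin_cases j <;> simp)]
    rfl
  have hd2 : ∀ a b, K false ![a, b] = K false ![d, b] := by
    intro a b
    obtain ⟨β, hβ, η, hη, h⟩ := h1 {a, b, d}
    rw [h false ![a, b] (fun j => by fin_cases j <;> simp),
      h false ![d, b] (fun j => by fin_cases j <;> simp)]
    rfl
  refine ⟨fun a => K true ![a, d], fun b => K false ![d, b], ?_, ?_⟩
  · intro A
    obtain ⟨β, hβ, η, hη, h⟩ := h1 (insert d A)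
    refine ⟨η * β 0, G.mul_mem (st_le hη) (st_le (hβ 0)), η * β 1,
      G.mul_mem (st_le hη) (st_le (hβ 1)), fun a ha => ⟨?_, ?_⟩⟩
    · exact h true ![a, d] (fun j => by fin_cases j <;> simp [ha])
    · exact h false ![d, a] (fun j => by fin_cases j <;> simp [ha])
  · intro m x y x' y' hx hy
    have := h2 m ![x, y] ![x', y'] (fun j => by fin_cases j <;> assumption)
    have e : ∀ (x y : Fin m → D) (il : Bool × Fin m),
        cond il.1 (K true ![x il.2, d]) (K false ![d, y il.2]) =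
          K il.1 (fun j => (![x, y] : Fin 2 → Fin m → D) j il.2) := by
      rintro x y ⟨i, l⟩
      have e2 : (fun j => (![x, y] : Fin 2 → Fin m → D) j l) = ![x l, y l] := by
        funext j
        fin_cases j <;> rfl
      show _ = K i (fun j => (![x, y] : Fin 2 → Fin m → D) j l)
      rw [e2]
      cases i
      · exact (hd2 _ _).symm
      · exact (hd1 _ _).symm
    have e1 : (fun il : Bool × Fin m => cond il.1 (K true ![x il.2, d]) (K false ![d, y il.2])) =
        fun il : Bool × Fin m => K il.1 (fun j => (![x, y] : Fin 2 → Fin m → D) j il.2) :=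
      funext (e x y)
    have e2 : (fun il : Bool × Fin m => cond il.1 (K true ![x' il.2, d]) (K false ![d, y' il.2])) =
        fun il : Bool × Fin m => K il.1 (fun j => (![x', y'] : Fin 2 → Fin m → D) j il.2) :=
      funext (e x' y')
    rw [e1, e2]
    exact this

end Pool.Agent.MP_f99268_lc
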