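import Pool.Agent.Lib.MP_f99268_lc_X.Jop2
import Pool.Agent.Lib.MP_f99268_lc_Y.Ulim

/-!
# Canonical behaviour on a copy of a finite set
-/

namespace Pool.Agent.MP_f99268_lc

open Equiv Classical Filter

variable {D : Type} [Countable D] {X : Ctx D} {r : ℕ} {A : Finset D} {J : D → D → D}

omit [Countable D] in
private theorem gam_bin_curry (F : (Fin 2 → D) → D) : bin (fun s t => F ![s, t]) = F := by
  funext x
  show F ![x 0, x 1] = F x
  congr 1
  funext j
  fin_cases j <;> rfl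

/-- A large finite set contains a copy of the finite set `N` on which `g ∈ 𝔼` is canonical.
Suppose not. For every finite `B` take a bad `g B ∈ 𝔼`; let `F₀` be the limit of the functions
`bin (g B)` (`ulim` for `X.G`, index set `Fin 2 → D`); `f₀ s t = F₀ ![s, t]` is in `𝔼`. Let `Γ` be
the canonisation of `F₀` (`canonise_one X.hR X.hO ∅ ∅ F₀`). Take the finite set `A ∪ N`: there are
`β 0, β 1 ∈ G`, `η ∈ G` with `Γ (x, y) = η (F₀ (β 0 x, β 1 y))` for `x, y ∈ A ∪ N`. For almost all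
`B` (`ulim`, `uf_superset`) `F₀ = η' (g B)` on `β 0 (A ∪ N) × β 1 (A ∪ N)` and `β 1 N ⊆ B`. Take
such a `B`, and `h = β 1`. The families `g B (s, h y)` and `Γ (s, y)`, `y ∈ N`, are both canonical
in `s` (`SCan`), so by `FEq.of_rich` it is enough to compare them for `s ∈ A`:
`g B (s, h y)` has the type of `g B (β 0 s, h y)` (`SCan`), and this is `Γ (s, y)` up to `G`. So
`g B` is not bad. -/
theorem exists_gam (hlo : LO X.G r) (hA : Rich X.G r A) (N : Finset D) :
    ∃ B : Finset D, ∀ g, EE X g → ∃ h ∈ X.G, (∀ y ∈ N, h y ∈ B) ∧ ∃ Γ : D → D → D,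
      bin Γ ∈ X.C 2 ∧ Can X.G ∅ ∅ (bin Γ) ∧
      FEq X.G (fam g (fun y : {y // y ∈ N} => h y)) (fam Γ (inc N)) := by
  by_contra hcon
  push Not at hcon
  choose g hg hbad using hcon
  obtain ⟨F₀, hF₀⟩ := ulim X.hO (fun B => bin (g B))
  have hmem : F₀ ∈ X.C 2 := by
    apply X.hC.closed
    intro A'
    obtain ⟨B, η, hη, h⟩ := (hF₀ (Fintype.piFinset fun _ : Fin 2 => A')).exists
    exact ⟨_, X.hC.aut_comp (hg B).mem hη, fun x hx => h x (by
      rw [Fintype.mem_piFinset]
      exact hx)⟩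
  obtain ⟨F, hF1, hF2⟩ := canonise_one X.hR X.hO ∅ ∅ F₀
  have hFmem : F ∈ X.C 2 := by
    apply X.hC.local hmem
    intro A'
    obtain ⟨β, hβ, η, hη, h1⟩ := hF1 A'
    exact ⟨β, fun j => st_le (hβ j), η, st_le hη, h1⟩
  obtain ⟨β, hβ, η, hη, h1⟩ := hF1 (A ∪ N)
  obtain ⟨B, ⟨η', hη', h2⟩, hB⟩ :=
    ((hF₀ (Fintype.piFinset fun j : Fin 2 => (A ∪ N).image (β j))).and
      (uf_superset (N.image (β 1)))).exists
  have hC : bin (fun s t => F ![s, t]) ∈ X.C 2 := by
    rw [gam_bin_curry]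
    exact hFmem
  have hcan : Can X.G ∅ ∅ (bin (fun s t => F ![s, t])) := by
    rw [gam_bin_curry]
    exact hF2
  refine hbad B (β 1) (st_le (hβ 1)) (fun y hy => hB (Finset.mem_image_of_mem _ hy)) _ hC hcan ?_
  apply FEq.of_rich hlo hA ((hg B).sc _ _) ((EE.of_can hC hcan).sc _ _)
  have h3 := ((hg B).sc {y // y ∈ N} (fun y => β 1 y)).fin
    (fun s : {s // s ∈ A} => (s : D)) (fun s => β 0 s) (Orb.of_mem (hβ 0) _)
  refine h3.trans ?_
  have e1 : (fun p : {s // s ∈ A} × {y // y ∈ N} => fam (fun s t => F ![s, t]) (inc N) p.1 p.2) =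
      fun p => η (η' (g B (β 0 p.1) (β 1 p.2))) := by
    funext p
    have e2 := h1 ![(p.1 : D), (p.2 : D)] (fun j => by
      fin_cases j
      · exact Finset.mem_union_left _ p.1.2
      · exact Finset.mem_union_right _ p.2.2)
    have e3 := h2 (fun j => β j ((![(p.1 : D), (p.2 : D)] : Fin 2 → D) j)) (by
      rw [Fintype.mem_piFinset]
      intro j
      apply Finset.mem_image_of_mem
      fin_cases j
      · exact Finset.mem_union_left _ p.1.2
      · exact Finset.mem_union_right _ p.2.2)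
    exact e2.trans (congrArg η e3)
  rw [e1]
  have hη'' : η' ∈ st X.G ∅ := by rw [st_empty]; exact hη'
  exact (Orb.of_mem hη'' _).trans (Orb.of_mem hη _)

end Pool.Agent.MP_f99268_lc
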