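import Pool.Agent.Lib.MP_f99268_lc_Y.Cut
import Pool.Agent.Lib.MP_f99268_lc_Y.Gam

/-!
# Maximal sets of copies that miss a large set
-/

namespace Pool.Agent.MP_f99268_lc

open Equiv Classical Filter

variable {D : Type} [Countable D] {X : Ctx D} {r : ℕ} {A : Finset D} {J : D → D → D}

/-- The data used in the main step: `g ∈ 𝔼` has on the finite set `N` the types of the canonical
operation `Γ` of value `1`; `W` is a set of copies at which `g` has the types of `J`; every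
`f ∈ 𝔼` that contains `W` and a copy inside `N` contains all copies inside `N`. -/
structure Jump (X : Ctx D) (A : Finset D) (J : D → D → D) (N : Finset D) (g Γ : D → D → D)
    (W : Set ({a // a ∈ A} → D)) : Prop where
  ee : EE X g
  mem : bin Γ ∈ X.C 2
  can : Can X.G ∅ ∅ (bin Γ)
  val : X.val 1 (bin Γ) = 1
  near : FEq X.G (fam g (inc N)) (fam Γ (inc N))
  unit : ∀ e ∈ W, IsCopy X.G A e ∧ FEq X.G (fam g e) (fam J (inc A))
  jump : ∀ f, EE X f → (∀ e ∈ W, e ∈ US X A J f) →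
    (∃ e, CopyIn X.G A N e ∧ e ∈ US X A J f) → ∀ e, CopyIn X.G A N e → e ∈ US X A J f

/-- Existence: `IsJ.eqv` for the finite set of `exists_gam`. -/
theorem IsJ.exists_jump (hJ : IsJ X r A J) {N : Finset D} (hAN : A ⊆ N) :
    ∃ g Γ W, Jump X A J N g Γ W := by
  obtain ⟨B, hB⟩ := exists_gam hJ.lo hJ.rich N
  obtain ⟨S, g₁, h₀, hg₁, hh₀, hBS, hnon, hfeq, hjump⟩ := hJ.eqv B
  obtain ⟨h₁, hh₁, hNB, Γ, hΓ, hΓc, hnear⟩ := hB (fun s t => g₁ s (h₀ t)) (hg₁.shift hh₀)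
  have hh : h₀ * h₁ ∈ X.G := X.G.mul_mem hh₀ hh₁
  have hgE : EE X (fun s t => g₁ s ((h₀ * h₁) t)) := hg₁.shift hh
  have hNB' : ∀ y ∈ N, (h₀ * h₁) y ∈ B.image h₀ := fun y hy =>
    Finset.mem_image_of_mem h₀ (hNB y hy)
  have hincN : CopyIn X.G A N (inc A) := ⟨⟨1, X.G.one_mem, fun _ => rfl⟩, fun a => hAN a.2⟩
  have hval : X.val 1 (bin Γ) = 1 := by
    have h1 : inc A ∉ US X A J (fun s t => g₁ s ((h₀ * h₁) t)) :=
      hnon _ (hincN.move hh hNB')
    have h2 : inc A ∈ US X A J (fun s t => g₁ s ((h₀ * h₁) t)) ↔ inc A ∈ US X A J Γ :=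
      hJ.congr hgE (EE.of_can hΓ hΓc) ((hnear.fin (fun a : {a // a ∈ A} => (a : D))).comp
        (fun p : {a // a ∈ A} × {a // a ∈ A} =>
          (p.1, (⟨p.2, hAN p.2.2⟩ : {y // y ∈ N}))))
    have h3 : X.val 1 (bin Γ) ≠ 0 := fun h => h1 (h2.2 ((hJ.can_iff hΓ hΓc hincN.1).2 h))
    rcases Fin.exists_fin_two.1 ⟨X.val 1 (bin Γ), rfl⟩ with h | h
    · exact absurd h h3
    · exact h
  refine ⟨fun s t => g₁ s ((h₀ * h₁) t), Γ,
    {e | IsCopy X.G A e ∧ CopyIn X.G A S (fun a => (h₀ * h₁) (e a)) ∧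
      (fun a => (h₀ * h₁) (e a)) ∈ US X A J g₁}, ?_⟩
  refine ⟨hgE, hΓ, hΓc, hval, hnear, ?_, ?_⟩
  · rintro e ⟨he1, he2, he3⟩
    exact ⟨he1, hfeq _ he2 he3⟩
  · rintro f hf hW ⟨e₀, he₀, he₀f⟩ e he
    have hf' : EE X (fun s t => f s ((h₀ * h₁)⁻¹ t)) := hf.shift (X.G.inv_mem hh)
    have hinv : ∀ e : {a // a ∈ A} → D,
        (fun a => (h₀ * h₁)⁻¹ ((fun a => (h₀ * h₁) (e a)) a)) = e := by
      intro e
      funext a
      simp
    have h4 := hjump _ hf' (fun e' he' he'g => by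
      refine hW (fun a => (h₀ * h₁)⁻¹ (e' a)) ⟨?_, ?_, ?_⟩
      · obtain ⟨⟨k, hk, hek⟩, -⟩ := he'
        exact ⟨(h₀ * h₁)⁻¹ * k, X.G.mul_mem (X.G.inv_mem hh) hk,
          fun a => congrArg ((h₀ * h₁)⁻¹ : Perm D) (hek a)⟩
      · have e3 : (fun a => (h₀ * h₁) ((h₀ * h₁)⁻¹ (e' a))) = e' := by
          funext a
          exact (h₀ * h₁).apply_symm_apply _
        rw [e3]
        exact he'
      · have e3 : (fun a => (h₀ * h₁) ((h₀ * h₁)⁻¹ (e' a))) = e' := by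
          funext a
          exact (h₀ * h₁).apply_symm_apply _
        rw [e3]
        exact he'g)
      ⟨fun a => (h₀ * h₁) (e₀ a), he₀.move hh hNB', by
        have h5 : (fun a => (h₀ * h₁)⁻¹ ((fun a => (h₀ * h₁) (e₀ a)) a)) ∈ US X A J f := by
          rw [hinv e₀]
          exact he₀f
        exact h5⟩ (fun a => (h₀ * h₁) (e a)) (he.move hh hNB')
    have h6 : (fun a => (h₀ * h₁)⁻¹ ((fun a => (h₀ * h₁) (e a)) a)) ∈ US X A J f := h4
    rw [hinv e] at h6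
    exact h6

end Pool.Agent.MP_f99268_lc
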