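import Pool.Agent.Lib.MP_f99268_lc_Y.StepB1

/-!
# The canonical copy is rejected by `Φ`
-/

namespace Pool.Agent.MP_f99268_lc

open Equiv Classical Filter

variable {D : Type} [Countable D] {X : Ctx D} {r : ℕ} {A : Finset D} {J : D → D → D}

/-- (b) Let `Γ'` be as in `exists_gam'`. The operation `h s t = K s (Γ' s t)` is canonical
(`hK.ee.can_left hK.can`). Its value is `1`: `X.val_comp` with the outer operation `bin K`, which
is canonical over `c = gim g A Z`, and the inner operations `v (x 0)` and `Γ' (x 0) (x 1)`, both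
canonical from the empty set to `c`, where `v` is an embedding with `CanU ∅ c v` (`X.w c`): the
value of `K (v s, Γ' s t)` is the value of `Γ'`, which is the value of `Γ (θ s, u t)`
(`X.val_congr`), which is the value `1` of `Γ` (`X.val_box`); and `K (v s, Γ' s t)` has the types
of `K (s, Γ' s t)` (`hK.orb`, `X.val_congr`). So `inc A ∉ U(h)` (`IsJ.can_iff`). The family
`Φ (s, u a) = K (s, g (θ s, u a))`, `a ∈ A`, has the types of `K (s, Γ' (s, a))` (last statement of
`exists_gam'`, `hK.orb`), so `u|A ∉ U(Φ)` (`IsJ.congr`). -/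
theorem phi_not_mem (hJ : IsJ X r A J) {H K : D → D → D} {N Z : Finset D} {g Γ : D → D → D}
    (hg : EE X g) (hZN : Z ⊆ N) (hC : bin Γ ∈ X.C 2) (hcan : Can X.G ∅ ∅ (bin Γ))
    (hval : X.val 1 (bin Γ) = 1) (hnear : FEq X.G (fam g (inc N)) (fam Γ (inc N)))
    (hK : KF X H K (gim g A Z)) {θ u : D → D} (hθ : Emb X.G θ) (hθA : CanU X.G ∅ A θ)
    (hu : Emb X.G u) (huZ : CanU X.G ∅ Z u) (huN : ∀ a ∈ A, u a ∈ N) :
    (fun a : {a // a ∈ A} => u a) ∉ US X A J (phi K g θ) := by
  obtain ⟨Γ', hΓC, hΓcan, hΓ1, hΓ2⟩ :=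
    exists_gam' hZN hC hcan hnear hθ hθA hu huZ huN
  have hEphi : EE X (phi K g θ) := EE.phi hg hK hθ hθA
  -- the operation `K s (Γ' s t)`
  have hmem : bin (fun s t => K s (Γ' s t)) ∈ X.C 2 := by
    have h2 := X.hC.comp 2 2 (bin K) (fun i => if i = 0 then (fun x => x 0) else bin Γ')
      hK.ee.mem (by
        intro i
        by_cases hi : i = 0
        · simp only [hi, if_true]
          exact X.hC.proj 2 0
        · simp only [hi, if_false]
          exact hΓC)
    have e : (fun x : Fin 2 → D => bin K (fun i => (if i = 0 then (fun x : Fin 2 → D => x 0) else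
        bin Γ') x)) = bin (fun s t => K s (Γ' s t)) := by
      funext x
      simp [bin]
    rwa [e] at h2
  have hcanh : Can X.G ∅ ∅ (bin (fun s t => K s (Γ' s t))) := by
    intro m x y hxy
    exact hK.orb (hxy 0) (hΓcan m x y hxy)
  have hEh : EE X (fun s t => K s (Γ' s t)) := EE.of_can hmem hcanh
  -- the value of `Γ'`
  have hθ0 : CanU X.G ∅ ∅ θ := fun m x y h => (hθA m x y h).to_empty
  have hu0 : CanU X.G ∅ ∅ u := fun m x y h => (huZ m x y h).to_empty
  have hbox : X.val 1 (bin (fun s t => Γ (θ s) (u t))) = 1 := by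
    have h1 := X.val_box (k := 1) (c₀ := ∅) (c := ∅) (h := bin Γ) (u := ![θ, u]) hC hcan
      (by
        intro j
        fin_cases j
        · exact hθ
        · exact hu)
      (by
        intro j
        fin_cases j
        · exact hθ0
        · exact hu0)
    rw [hval] at h1
    exact h1
  have hboxC : bin (fun s t => Γ (θ s) (u t)) ∈ X.C 2 := by
    have h1 := X.hC.comp_emb (F := bin Γ) hC (u := ![θ, u]) (by
      intro j
      fin_cases j
      · exact hθ
      · exact hu)
    exact h1
  have hboxcan : Can X.G ∅ ∅ (bin (fun s t => Γ (θ s) (u t))) := by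
    have h1 := hcan.comp_canU (u := ![θ, u]) (c₀ := ∅) (by
      intro j
      fin_cases j
      · exact hθ0
      · exact hu0)
    exact h1
  have hvalΓ : X.val 1 (bin Γ') = 1 := by
    rw [← hbox]
    exact X.val_congr (c := ∅) (c' := ∅) hΓC hboxC
      (hΓcan.mono subset_rfl (Finset.empty_subset _)) hboxcan
      (fun m x => hΓ1 m (x 0) (x 1))
  -- the value of the composition
  have hwE := X.w_emb (gim g A Z)
  have hwc := X.w_can (gim g A Z)
  have hvalh : X.val 1 (bin (fun s t => K s (Γ' s t))) = 1 := by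
    have hin : ∀ i : Fin 2, (![fun x : Fin 2 → D => X.w (gim g A Z) (x 0), bin Γ'] :
        Fin 2 → (Fin 2 → D) → D) i ∈ X.C 2 := by
      intro i
      fin_cases i
      · exact X.hC.emb_comp (X.hC.proj 2 0) hwE
      · exact hΓC
    have hincan : ∀ i : Fin 2, Can X.G ∅ (gim g A Z)
        ((![fun x : Fin 2 → D => X.w (gim g A Z) (x 0), bin Γ'] :
        Fin 2 → (Fin 2 → D) → D) i) := by
      intro i
      fin_cases i
      · exact hwc.can 0
      · exact hΓcan
    have h1 := X.val_comp (n := 1) (m := 1) (h := bin K) (c₀ := ∅) (c := gim g A Z)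
      hK.ee.mem hK.can hin hincan
    rw [hK.val] at h1
    have h2 : X.val 1 (bin (fun s t => K s (Γ' s t))) =
        X.val 1 (bin (fun s t => K (X.w (gim g A Z) s) (Γ' s t))) := by
      have hmem' : bin (fun s t => K (X.w (gim g A Z) s) (Γ' s t)) ∈ X.C 2 := by
        have h3 := X.hC.comp 2 2 (bin K) _ hK.ee.mem hin
        exact h3
      have hcan' : Can X.G ∅ ∅ (bin (fun s t => K (X.w (gim g A Z) s) (Γ' s t))) := by
        have h3 := hK.can.comp_can hincan
        exact h3
      refine X.val_congr (c := ∅) (c' := ∅) hmem hmem' hcanh hcan' ?_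
      intro m x
      exact hK.orb (hwE.orb (x 0)) (Orb.refl _)
    rw [h2]
    exact h1.trans hvalΓ
  have hinc : IsCopy X.G A (inc A) := ⟨1, X.G.one_mem, fun _ => rfl⟩
  have hnot : inc A ∉ US X A J (fun s t => K s (Γ' s t)) := by
    intro h
    have h1 := (hJ.can_iff hmem hcanh hinc).1 h
    rw [hvalh] at h1
    exact one_ne_zero h1
  intro hcon
  apply hnot
  refine (hJ.congr hEh hEphi (e := inc A) (e' := fun a : {a // a ∈ A} => u a) ?_).2 hcon
  refine hK.orb (β := {a // a ∈ A} × {a // a ∈ A}) (s := fun p => p.1) (s' := fun p => p.1)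
    (v := fun p => Γ' p.1 (inc A p.2)) (v' := fun p => g (θ p.1) (u p.2)) (Orb.refl _) ?_
  obtain ⟨n, ⟨e⟩⟩ := Finite.exists_equiv_fin ({a // a ∈ A} × {a // a ∈ A})
  have h := (hΓ2 n (fun l => ((e.symm l).1 : D)) (fun l => ((e.symm l).2 : D))
    (fun l => (e.symm l).2.2)).comp e
  simpa [inc] using h

end Pool.Agent.MP_f99268_lc
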