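import Pool.Agent.Lib.MP_f99268_lc_Y.StepE1

/-!
# The units of `g` are accepted by `Φ`
-/

namespace Pool.Agent.MP_f99268_lc

open Equiv Classical Filter

variable {D : Type} [Countable D] {X : Ctx D} {r : ℕ} {A : Finset D} {J : D → D → D}

/-- (e) Let `g'` be as in `exists_ghat` and `f s t = K s (g' s t)`. `f ∈ 𝔼`, canonical over `A`
(`hK.orb`; for constants `t : α → D` use the index set `Fin m × α`). Its value is `0`:
`X.val_comp` with the outer operation `bin K` (canonical over `c = gim g A Z`) and the inner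
operations `v (x 0)` and `g' (x 0) (x 1)`, canonical from `A` to `c`, where `v` is an embedding
with `CanU ∅ c v` (`X.w c`): the value of `K (v s, g' s t)` is the value of `g'`, which is the
value `0` of `J` (`X.val_congr`, `hJ.val`), and `K (v s, g' s t)` has the types of
`K (s, g' s t)` (`hK.orb`). By `IsJ.T1` `inc A ∈ U(f)`. The family `f (s, a) = K (s, g' (s, a))`,
`a ∈ A`, has the types of `K (s, g (θ s, e a)) = Φ (s, e a)` (last statement of `exists_ghat`,
`hK.orb`), so `e ∈ U(Φ)` (`IsJ.congr`; `Φ ∈ 𝔼` by `EE.phi`). -/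
theorem phi_mem (hJ : IsJ X r A J) {H K : D → D → D} {Z : Finset D} {g : D → D → D}
    (hg : EE X g) (hK : KF X H K (gim g A Z)) {e : {a // a ∈ A} → D}
    (he : FEq X.G (fam g e) (fam J (inc A)))
    {θ : D → D} (hθ : Emb X.G θ) (hθA : CanU X.G ∅ A θ) : e ∈ US X A J (phi K g θ) := by
  obtain ⟨g', g1, g2, g3, g4⟩ := exists_ghat (Z := Z) hJ hg he hθ hθA
  have fin2 : ∀ {β : Type} [Finite β] {s s' t t' : β → D}, Orb X.G ∅ s s' → Orb X.G A t t' →
      Orb X.G (gim g A Z) (fun l => g' (s l) (t l)) (fun l => g' (s' l) (t' l)) := by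
    intro β _ s s' t t' hs ht
    obtain ⟨n, ⟨f⟩⟩ := Finite.exists_equiv_fin β
    have := (g2 n _ _ _ _ (hs.comp f.symm) (ht.comp f.symm)).comp f
    simpa using this
  -- the operation `f`
  have hmem : bin (fun s t => K s (g' s t)) ∈ X.C 2 := by
    have h := X.hC.comp 2 2 (bin K)
      (fun i x => if i = 0 then x 0 else g' (x 0) (x 1)) hK.ee.mem (by
        intro i
        fin_cases i
        · exact X.hC.proj 2 0
        · exact g1)
    exact h
  have hcan : Can X.G A ∅ (bin (fun s t => K s (g' s t))) := by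
    intro m x y hxy
    exact hK.orb (hxy 0).to_empty (fin2 (hxy 0).to_empty (hxy 1))
  have hE : EE X (fun s t => K s (g' s t)) := by
    refine ⟨hmem, ?_⟩
    intro α _ t m s s' hs
    have h1 : Orb X.G ∅ (fun p : Fin m × α => s p.1) (fun p => s' p.1) :=
      hs.comp (fun p : Fin m × α => p.1)
    exact hK.orb h1 (fin2 (t := fun p : Fin m × α => t p.2) (t' := fun p => t p.2) h1
      (Orb.refl _))
  -- the value
  obtain ⟨c, hc⟩ : ∃ c, c = gim g A Z := ⟨_, rfl⟩
  have hval : X.val 1 (bin (fun s t => K s (g' s t))) = 0 := by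
    rw [← hc] at hK fin2
    let Q : Fin 2 → (Fin 2 → D) → D := fun i x => if i = 0 then X.w c (x 0) else g' (x 0) (x 1)
    have hQ : ∀ i, Q i ∈ X.C 2 := by
      intro i
      fin_cases i
      · exact X.hC.emb_comp (X.hC.proj 2 0) (X.w_emb c)
      · exact g1
    have hQc : ∀ i, Can X.G A c (Q i) := by
      intro i
      fin_cases i
      · exact ((X.w_can c).can (k := 2) 0).mono (Finset.empty_subset _) subset_rfl
      · intro m x y hxy
        exact fin2 (hxy 0).to_empty (hxy 1)
    have v1 := X.val_comp (n := 1) (m := 1) (h := bin K) (K := Q) (c₀ := A) (c := c)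
      hK.ee.mem hK.can hQ hQc
    rw [hK.val] at v1
    have v2 : X.val 1 (Q 1) = 0 := by
      rw [← hJ.val]
      refine X.val_congr (c := A) (c' := ∅) (hQ 1) hJ.mem
        ((hQc 1).mono subset_rfl (Finset.empty_subset _)) hJ.can ?_
      intro m x
      exact g3 m (x 0) (x 1)
    rw [v2] at v1
    rw [← v1]
    refine X.val_congr (c := A) (c' := A) hmem
      (X.hC.comp 2 2 (bin K) Q hK.ee.mem hQ) hcan (hK.can.comp_can hQc) ?_
    intro m x
    exact hK.orb ((X.w_emb c).orb (x 0)) (Orb.refl _)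
  -- the unit
  have hinc : IsCopy X.G A (inc A) := ⟨1, X.G.one_mem, fun _ => rfl⟩
  have hU : inc A ∈ US X A J (fun s t => K s (g' s t)) := hJ.T1 hE hcan hval hinc
  refine (hJ.congr hE (hg.phi hK hθ hθA) ?_).1 hU
  have h4 : Orb X.G (gim g A Z) (fun p : {a // a ∈ A} × {a // a ∈ A} => g' p.1 p.2)
      (fun p => g (θ p.1) (e p.2)) := by
    obtain ⟨n, ⟨f⟩⟩ := Finite.exists_equiv_fin ({a // a ∈ A} × {a // a ∈ A})
    have := (g4 n (fun l => (f.symm l).1) (fun l => (f.symm l).2)).comp f
    simpa using this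
  exact hK.orb (Orb.refl _) h4

end Pool.Agent.MP_f99268_lc
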