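import Pool.Agent.Lib.MP_f99268_lc_X.T1
import Pool.Agent.Lib.MP_f99268_lc_Y.Ulim

/-!
# Some copy inside a large set becomes a unit
-/

namespace Pool.Agent.MP_f99268_lc

open Equiv Classical Filter

variable {D : Type} [Countable D] {X : Ctx D} {r : ℕ} {A : Finset D} {J : D → D → D}

/-- A ternary operation as an element of the clone. -/
def tern (f : D → D → D → D) : (Fin 3 → D) → D := fun x => f (x 0) (x 1) (x 2)

/-- The operation is canonical in the first variable without constants and in the second variable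
over `A`, for constant third variables. -/
def PCan (G : Subgroup (Perm D)) (A : Finset D) (f : D → D → D → D) : Prop :=
  ∀ (β : Type) [Finite β] (s s' t t' y : β → D), Orb G ∅ s s' → Orb G A t t' →
    Orb G ∅ (fun l => f (s l) (t l) (y l)) (fun l => f (s' l) (t' l) (y l))

/-- The operation `K (s, g (t, y))`. -/
theorem pcan_psi {g K : D → D → D} (hg : EE X g) {Z : Finset D} (hK : EE X K)
    (hKc : Can X.G ((A ×ˢ Z).image fun p => g p.1 p.2) ∅ (bin K)) :
    PCan X.G A (fun s t y => K s (g t y)) := by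
  intro β _ s s' t t' y hs ht
  apply hK.can_left hKc hs
  obtain ⟨k, hk, hkt⟩ := ht
  have h1 : Orb X.G ∅ (Sum.elim t (fun a : {a // a ∈ A} => (a : D)))
      (Sum.elim t' (fun a : {a // a ∈ A} => (a : D))) := by
    refine ⟨k, st_mono (Finset.empty_subset _) hk, ?_⟩
    rintro (l | a)
    · exact hkt l
    · exact (mem_st.1 hk).2 a a.2
  have h2 := (hg.sc (β ⊕ {z // z ∈ Z}) (Sum.elim y (fun z => (z : D)))).fin _ _ h1
  obtain ⟨h, hh, hhe⟩ := h2
  refine ⟨h, ?_, fun l => hhe (Sum.inl l, Sum.inl l)⟩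
  rw [mem_st]
  refine ⟨st_le hh, fun w hw => ?_⟩
  obtain ⟨⟨a, z⟩, haz, rfl⟩ := Finset.mem_image.1 hw
  rw [Finset.mem_product] at haz
  exact hhe (Sum.inr ⟨a, haz.1⟩, Sum.inr ⟨z, haz.2⟩)

omit [Countable D] in
private theorem Psi_id (G : Subgroup (Perm D)) : Emb G (id : D → D) :=
  fun _ => ⟨1, G.one_mem, fun _ _ => rfl⟩

/-- Membership of `K (s, g (t, y))`. -/
theorem mem_psi {g K : D → D → D} (hg : bin g ∈ X.C 2) (hK : bin K ∈ X.C 2) :
    tern (fun s t y => K s (g t y)) ∈ X.C 3 := by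
  have h1 : (fun x : Fin 3 → D => bin g (fun i => (![fun x => x 1, fun x => x 2] :
      Fin 2 → (Fin 3 → D) → D) i x)) ∈ X.C 3 := by
    apply X.hC.comp 2 3 _ _ hg
    intro i
    fin_cases i
    · exact X.hC.proj 3 1
    · exact X.hC.proj 3 2
  have h2 : (fun x : Fin 3 → D => bin K (fun i => (![fun x => x 0, fun x : Fin 3 → D =>
      bin g (fun i => (![fun x => x 1, fun x => x 2] : Fin 2 → (Fin 3 → D) → D) i x)] :
      Fin 2 → (Fin 3 → D) → D) i x)) ∈ X.C 3 := by
    apply X.hC.comp 2 3 _ _ hK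
    intro i
    fin_cases i
    · exact X.hC.proj 3 0
    · exact h1
  exact h2

/-- If the third variable is tested and the first two are `s` and `θ s` then the operation is in
`𝔼`. -/
theorem EE.of_pcan {f : D → D → D → D} (hf : tern f ∈ X.C 3) (hP : PCan X.G A f) {θ : D → D}
    (hθ : Emb X.G θ) (hθc : CanU X.G ∅ A θ) : EE X (fun s t => f s (θ s) t) := by
  refine ⟨?_, ?_⟩
  · have h2 : (fun x : Fin 2 → D => tern f (fun i => (![fun x => x 0, fun x : Fin 2 → D =>
        θ (x 0), fun x => x 1] : Fin 3 → (Fin 2 → D) → D) i x)) ∈ X.C 2 := by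
      apply X.hC.comp 3 2 _ _ hf
      intro i
      fin_cases i
      · exact X.hC.proj 2 0
      · exact X.hC.emb_comp (X.hC.proj 2 0) hθ
      · exact X.hC.proj 2 1
    exact h2
  · intro α _ t m s s' hs
    exact hP (Fin m × α) (fun p => s p.1) (fun p => s' p.1) (fun p => θ (s p.1))
      (fun p => θ (s' p.1)) (fun p => t p.2) (hs.comp _)
      ((hθc.fin s s' hs).comp (fun p : Fin m × α => p.1))

/-- The operation `K (s, g (θ s, t))` is in `𝔼`. -/
theorem EE.phi_psi {g K : D → D → D} (hg : EE X g) {Z : Finset D} (hK : EE X K)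
    (hKc : Can X.G ((A ×ˢ Z).image fun p => g p.1 p.2) ∅ (bin K)) {θ : D → D}
    (hθ : Emb X.G θ) (hθc : CanU X.G ∅ A θ) : EE X (fun s t => K s (g (θ s) t)) :=
  EE.of_pcan (A := A) (f := fun s t y => K s (g t y)) (mem_psi hg.mem hK.mem)
    (pcan_psi hg hK hKc) hθ hθc

/-- The situation of the limit: `f` is canonical in the first variable over nothing, in the second
one over `A` and in the third one over nothing, it is `H (s, Γ (a, y))` for `a ∈ A`, and
`f (s, θ s, t)` has no units. This contradicts T1 for the second variable. -/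
theorem IsJ.psi_false (hJ : IsJ X r A J) {H Γ : D → D → D} (hH : bin H ∈ X.C 2)
    (hHc : Can X.G ∅ ∅ (bin H)) (hHv : X.val 1 (bin H) = 0) (hΓ : bin Γ ∈ X.C 2)
    (hΓc : Can X.G ∅ ∅ (bin Γ)) {θ : D → D} (hθ : Emb X.G θ) (hθc : CanU X.G ∅ A θ)
    {f : D → D → D → D} (hf : tern f ∈ X.C 3)
    (hcan : ∀ (β : Type) [Finite β] (s s' t t' y y' : β → D), Orb X.G ∅ s s' →
      Orb X.G A t t' → Orb X.G ∅ y y' →
      Orb X.G ∅ (fun l => f (s l) (t l) (y l)) (fun l => f (s' l) (t' l) (y' l)))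
    (hnear : ∀ (β : Type) [Finite β] (s y : β → D) (a : β → {a // a ∈ A}),
      Orb X.G ∅ (fun l => f (s l) (a l) (y l)) (fun l => H (s l) (Γ (a l) (y l))))
    (hno : inc A ∉ US X A J (fun s t => f s (θ s) t)) : False := by
  have hid : ∀ i : Fin 2, X.val 1 (fun x : Fin 2 → D => x i) = i := fun i =>
    X.val_emb_proj (u := fun a => a) (c₀ := ∅) (c := ∅)
      (fun _ => ⟨1, X.G.one_mem, fun _ _ => rfl⟩) (fun _ _ _ h => h) i
  have hcopy : IsCopy X.G A (inc A) := ⟨1, X.G.one_mem, fun _ => rfl⟩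
  have hfc : Can X.G A ∅ (tern f) := fun m x y hxy =>
    hcan (Fin m) (x 0) (y 0) (x 1) (y 1) (x 2) (y 2) (hxy 0).to_empty (hxy 1) (hxy 2).to_empty
  have hθA : CanU X.G A A θ := fun m x y h => hθc m x y h.to_empty
  -- the operation `f (s, θ s, t)` has the value `1`
  have hP : EE X (fun s t => f s (θ s) t) := EE.of_pcan hf
    (fun β _ s s' t t' y hs ht => hcan β s s' t t' y y hs ht (Orb.refl _)) hθ hθc
  have hPc : Can X.G ∅ ∅ (bin fun s t => f s (θ s) t) := fun m x y hxy =>
    hcan (Fin m) (x 0) (y 0) (fun l => θ (x 0 l)) (fun l => θ (y 0 l)) (x 1) (y 1) (hxy 0)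
      (hθc m _ _ (hxy 0)) (hxy 1)
  have hPv : X.val 1 (bin fun s t => f s (θ s) t) ≠ 0 := fun h =>
    hno ((hJ.can_iff hP.mem hPc hcopy).2 h)
  have hv2 : X.val 2 (tern f) = 2 := by
    have h1 := X.val_comp (n := 2) (m := 1) (h := tern f)
      (K := ![fun x => x 0, fun x => θ (x 0), fun x => x 1]) (c₀ := A) (c := A) hf hfc
      (by
        intro i
        fin_cases i
        · exact X.hC.proj 2 0
        · exact X.hC.emb_comp (X.hC.proj 2 0) hθ
        · exact X.hC.proj 2 1)
      (by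
        intro i
        fin_cases i
        · exact Can.proj X.G A 0
        · exact hθA.can 0
        · exact Can.proj X.G A 1)
    have h2 : X.val 1 (bin fun s t => f s (θ s) t) ≠ 0 := hPv
    have h3 : (bin fun s t => f s (θ s) t) = fun x : Fin 2 → D => tern f (fun i =>
        (![fun x => x 0, fun x => θ (x 0), fun x => x 1] : Fin 3 → (Fin 2 → D) → D) i x) := rfl
    rw [h3, h1] at h2
    generalize X.val 2 (tern f) = i at h2 ⊢
    fin_cases i
    · exact absurd (hid 0) h2
    · exact absurd (X.val_emb_proj (k := 1) hθ hθA 0) h2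
    · rfl
  -- the operation with the second variable tested
  have hQ : EE X (fun s t => f t t s) := by
    refine ⟨?_, ?_⟩
    · have h2 : (fun x : Fin 2 → D => tern f (fun i => (![fun x => x 1, fun x => x 1,
          fun x => x 0] : Fin 3 → (Fin 2 → D) → D) i x)) ∈ X.C 2 := by
        apply X.hC.comp 3 2 _ _ hf
        intro i
        fin_cases i
        · exact X.hC.proj 2 1
        · exact X.hC.proj 2 1
        · exact X.hC.proj 2 0
      exact h2
    · intro α _ t m s s' hs
      exact hcan (Fin m × α) (fun p => t p.2) (fun p => t p.2) (fun p => t p.2)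
        (fun p => t p.2) (fun p => s p.1) (fun p => s' p.1) (Orb.refl _) (Orb.refl _)
        (hs.comp _)
  have hQc : Can X.G A ∅ (bin fun s t => f t t s) := fun m x y hxy =>
    hcan (Fin m) (x 1) (y 1) (x 1) (y 1) (x 0) (y 0) (hxy 1).to_empty (hxy 1)
      (hxy 0).to_empty
  have hQv : X.val 1 (bin fun s t => f t t s) = 0 := by
    have h1 := X.val_comp (n := 2) (m := 1) (h := tern f)
      (K := ![fun x => x 1, fun x => x 1, fun x => x 0]) (c₀ := A) (c := A) hf hfc
      (by
        intro i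
        fin_cases i
        · exact X.hC.proj 2 1
        · exact X.hC.proj 2 1
        · exact X.hC.proj 2 0)
      (by
        intro i
        fin_cases i
        · exact Can.proj X.G A 1
        · exact Can.proj X.G A 1
        · exact Can.proj X.G A 0)
    rw [hv2] at h1
    exact h1.trans (hid 0)
  have hU : inc A ∈ US X A J (fun s t => f t t s) := hJ.T1 hQ hQc hQv hcopy
  -- comparison with `H (t, Γ (t, s))`
  have hR : bin (fun s t => H t (Γ t s)) ∈ X.C 2 := by
    have h1 : (fun x : Fin 2 → D => bin Γ (fun i => (![fun x => x 1, fun x => x 0] :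
        Fin 2 → (Fin 2 → D) → D) i x)) ∈ X.C 2 := by
      apply X.hC.comp 2 2 _ _ hΓ
      intro i
      fin_cases i
      · exact X.hC.proj 2 1
      · exact X.hC.proj 2 0
    have h2 : (fun x : Fin 2 → D => bin H (fun i => (![fun x => x 1, fun x : Fin 2 → D =>
        bin Γ (fun i => (![fun x => x 1, fun x => x 0] : Fin 2 → (Fin 2 → D) → D) i x)] :
        Fin 2 → (Fin 2 → D) → D) i x)) ∈ X.C 2 := by
      apply X.hC.comp 2 2 _ _ hH
      intro i
      fin_cases i
      · exact X.hC.proj 2 1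
      · exact h1
    exact h2
  have hΓc' : Can X.G ∅ ∅ (fun x : Fin 2 → D => Γ (x 1) (x 0)) := fun m x y hxy =>
    hΓc m ![x 1, x 0] ![y 1, y 0] (fun j => by
      fin_cases j
      · exact hxy 1
      · exact hxy 0)
  have hRc : Can X.G ∅ ∅ (bin fun s t => H t (Γ t s)) := fun m x y hxy =>
    hHc m ![x 1, fun l => Γ (x 1 l) (x 0 l)] ![y 1, fun l => Γ (y 1 l) (y 0 l)] (fun j => by
      fin_cases j
      · exact hxy 1
      · exact hΓc' m x y hxy)
  have hRv : X.val 1 (bin fun s t => H t (Γ t s)) = 1 := by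
    have h1 := X.val_comp (n := 1) (m := 1) (h := bin H)
      (K := ![fun x => x 1, fun x => Γ (x 1) (x 0)]) (c₀ := ∅) (c := ∅) hH hHc
      (by
        intro i
        fin_cases i
        · exact X.hC.proj 2 1
        · have h1 : (fun x : Fin 2 → D => bin Γ (fun i => (![fun x => x 1, fun x => x 0] :
              Fin 2 → (Fin 2 → D) → D) i x)) ∈ X.C 2 := by
            apply X.hC.comp 2 2 _ _ hΓ
            intro i
            fin_cases i
            · exact X.hC.proj 2 1
            · exact X.hC.proj 2 0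
          exact h1)
      (by
        intro i
        fin_cases i
        · exact Can.proj X.G ∅ 1
        · exact hΓc')
    rw [hHv] at h1
    exact h1.trans (hid 1)
  have hRE : EE X (fun s t => H t (Γ t s)) := EE.of_can hR hRc
  have h4 : inc A ∈ US X A J (fun s t => H t (Γ t s)) := by
    refine (hJ.congr hQ hRE (e := inc A) (e' := inc A) ?_).1 hU
    exact hnear ({a // a ∈ A} × {a // a ∈ A}) (fun p => p.2) (fun p => p.1) (fun p => p.2)
  have h5 := (hJ.can_iff hR hRc hcopy).1 h4
  rw [hRv] at h5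
  exact absurd h5 (by decide)

omit [Countable D] in
/-- Properties of the limit hold if they hold for some member that agrees on a finite set. -/
private theorem Psi_ev {F₀ : (Fin 3 → D) → D} {F : Finset D → (Fin 3 → D) → D}
    {G : Subgroup (Perm D)}
    (h : ∀ U : Finset (Fin 3 → D), ∀ᶠ B in (uf D : Filter (Finset D)),
      ∃ η ∈ G, ∀ x ∈ U, F₀ x = η (F B x)) {β : Type} [Finite β] (s t y : β → D) :
    ∀ᶠ B in (uf D : Filter (Finset D)), Orb G ∅ (fun l => F₀ ![s l, t l, y l])
      (fun l => F B ![s l, t l, y l]) := by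
  refine (h (Set.finite_range fun l => (![s l, t l, y l] : Fin 3 → D)).toFinset).mono ?_
  rintro B ⟨η, hη, h1⟩
  refine (Orb.symm ⟨η, by rw [st_empty]; exact hη, fun l => ?_⟩)
  exact (h1 _ (by rw [Set.Finite.mem_toFinset]; exact ⟨l, rfl⟩)).symm

/-- The limit of operations `K (s, g (t, y))`, for larger and larger sets `Z`. -/
private theorem Psi_lim (hJ : IsJ X r A J) {H Γ : D → D → D}
    (hHc : Can X.G ∅ ∅ (bin H)) {θ : D → D} (hθ : Emb X.G θ)
    (hθc : CanU X.G ∅ A θ) {g K : Finset D → D → D → D} {ζ : Finset D → Finset D}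
    (hζ : ∀ Z, Z ⊆ ζ Z) (hg : ∀ Z, EE X (g Z))
    (hgΓ : ∀ Z, FEq X.G (fam (g Z) (fun z : {z // z ∈ ζ Z} => (z : D)))
      (fam Γ (fun z : {z // z ∈ ζ Z} => (z : D))))
    (hK : ∀ Z, EE X (K Z))
    (hKc : ∀ Z, Can X.G ((A ×ˢ ζ Z).image fun p => g Z p.1 p.2) ∅ (bin (K Z)))
    (hKH : ∀ (Z : Finset D) (α : Type) [Finite α] (w : α → D),
      (∀ a, w a ∈ (A ×ˢ ζ Z).image fun p => g Z p.1 p.2) → FEq X.G (fam (K Z) w) (fam H w))
    (hno : ∀ Z e, IsCopy X.G A e → (∀ a, e a ∈ ζ Z) →
      e ∉ US X A J (fun s t => K Z s (g Z (θ s) t))) :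
    ∃ f : D → D → D → D, tern f ∈ X.C 3 ∧ PCan X.G A f ∧
      (∀ (β : Type) [Finite β] (s y : β → D) (a : β → {a // a ∈ A}),
        Orb X.G ∅ (fun l => f (s l) (a l) (y l)) (fun l => H (s l) (Γ (a l) (y l)))) ∧
      ∀ e, IsCopy X.G A e → e ∉ US X A J (fun s t => f s (θ s) t) := by
  obtain ⟨F₀, hF₀⟩ := ulim X.hO (fun (Z : Finset D) (x : Fin 3 → D) =>
    tern (fun s t y => K Z s (g Z t y)) x)
  have hev : ∀ (β : Type) [Finite β] (s t y : β → D), ∀ᶠ Z in (uf D : Filter (Finset D)),
      Orb X.G ∅ (fun l => F₀ ![s l, t l, y l]) (fun l => K Z (s l) (g Z (t l) (y l))) :=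
    fun β _ s t y => Psi_ev hF₀ s t y
  have hter : tern (fun s t y => F₀ ![s, t, y]) = F₀ := by
    funext x
    show F₀ ![x 0, x 1, x 2] = F₀ x
    congr 1
    funext j
    fin_cases j <;> rfl
  have hmem : tern (fun s t y => F₀ ![s, t, y]) ∈ X.C 3 := by
    rw [hter]
    apply X.hC.closed
    intro S
    obtain ⟨Z, η, hη, h1⟩ := (hF₀ (Fintype.piFinset fun _ => S)).exists
    exact ⟨_, X.hC.aut_comp (mem_psi (hg Z).mem (hK Z).mem) hη,
      fun x hx => h1 x (Fintype.mem_piFinset.2 hx)⟩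
  have hP : PCan X.G A (fun s t y => F₀ ![s, t, y]) := by
    intro β _ s s' t t' y hs ht
    obtain ⟨Z, h1, h2⟩ := ((hev β s t y).and (hev β s' t' y)).exists
    exact (h1.trans (pcan_psi (hg Z) (hK Z) (hKc Z) β s s' t t' y hs ht)).trans h2.symm
  refine ⟨fun s t y => F₀ ![s, t, y], hmem, hP, ?_, ?_⟩
  · intro β _ s y a
    obtain ⟨Z, h1, h2⟩ := ((hev β s (fun l => a l) y).and
      (uf_superset (Set.finite_range y).toFinset)).exists
    have hyZ : ∀ l, y l ∈ ζ Z := fun l => hζ Z (h2 (by simp))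
    have hw : ∀ l, g Z (a l) (y l) ∈ (A ×ˢ ζ Z).image fun p => g Z p.1 p.2 := fun l =>
      Finset.mem_image.2 ⟨((a l : D), y l), Finset.mem_product.2 ⟨(a l).2, hyZ l⟩, rfl⟩
    have h3 := ((hKH Z β (fun l => g Z (a l) (y l)) hw).fin s).comp (fun l : β => (l, l))
    have h4 := ((hgΓ Z).fin (fun l : β => ((a l : {a // a ∈ A}) : D))).comp
      (fun l : β => (l, (⟨y l, hyZ l⟩ : {z // z ∈ ζ Z})))
    have h5 := hHc.fin ![s, fun l => g Z (a l) (y l)] ![s, fun l => Γ (a l) (y l)] (fun j => by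
      fin_cases j
      · exact Orb.refl _
      · exact h4)
    exact (h1.trans h3).trans h5
  · intro e he hmem'
    obtain ⟨Z, h1, h2⟩ := ((hev ({a // a ∈ A} × {a // a ∈ A}) (fun p => p.1) (fun p => θ p.1)
      (fun p => e p.2)).and (uf_superset (Set.finite_range e).toFinset)).exists
    refine hno Z e he (fun a => hζ Z (h2 (by simp))) ?_
    exact (hJ.congr (EE.of_pcan hmem hP hθ hθc) (EE.phi_psi (hg Z) (hK Z) (hKc Z) hθ hθc) h1).1
      hmem'

/-- (z) If `Z` is large, `g ∈ 𝔼` is `Γ` on `Z`, `K ∈ 𝔼` is canonical over `c' = g (A × Z)` and equal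
to `H` on `c'`, and `θ` is a far copy over `A`, then some copy inside `Z` is a unit of
`K (s, g (θ s, t))`. Otherwise the limit of `K (s, g (t, y))` for `Z → D`, canonised in `y`,
contradicts `IsJ.psi_false`. -/
theorem IsJ.exists_Z (hJ : IsJ X r A J) {H Γ : D → D → D} (hH : bin H ∈ X.C 2)
    (hHc : Can X.G ∅ ∅ (bin H)) (hHv : X.val 1 (bin H) = 0) (hΓ : bin Γ ∈ X.C 2)
    (hΓc : Can X.G ∅ ∅ (bin Γ)) {θ : D → D} (hθ : Emb X.G θ) (hθc : CanU X.G ∅ A θ) :
    ∃ Z₀ : Finset D, ∀ Z : Finset D, Z₀ ⊆ Z → ∀ g, EE X g →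
      FEq X.G (fam g (fun z : {z // z ∈ Z} => (z : D)))
        (fam Γ (fun z : {z // z ∈ Z} => (z : D))) →
      ∀ K, EE X K → Can X.G ((A ×ˢ Z).image fun p => g p.1 p.2) ∅ (bin K) →
      (∀ (α : Type) [Finite α] (w : α → D), (∀ a, w a ∈ (A ×ˢ Z).image fun p => g p.1 p.2) →
        FEq X.G (fam K w) (fam H w)) →
      ∃ e, IsCopy X.G A e ∧ (∀ a, e a ∈ Z) ∧ e ∈ US X A J (fun s t => K s (g (θ s) t)) := by
  by_contra hcon
  push Not at hcon
  choose ζ hζ g hg hgΓ K hK hKc hKH hno using hcon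
  obtain ⟨f₀, hf₀, hP₀, hn₀, hno₀⟩ := Psi_lim hJ hHc hθ hθc hζ hg hgΓ hK hKc
    (fun Z α _ w hw => hKH Z α w hw) hno
  obtain ⟨K₁, hK1, hK2⟩ := canonise_one X.hR X.hO A ∅ (tern f₀)
  have hw := X.w_emb A
  have hwc := X.w_can A
  let f : D → D → D → D := fun s t y => K₁ ![s, t, X.w A y]
  have hK₁ : K₁ ∈ X.C 3 := by
    apply X.hC.local hf₀
    intro S
    obtain ⟨β, hβ, η, hη, h1⟩ := hK1 S
    exact ⟨β, fun j => st_le (hβ j), η, st_le hη, h1⟩
  have hf : tern f ∈ X.C 3 := by
    have h1 := X.hC.comp_emb hK₁ (u := ![id, id, X.w A]) (by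
      intro j
      fin_cases j
      · exact Psi_id X.G
      · exact Psi_id X.G
      · exact hw)
    have e1 : tern f = fun x => K₁ (fun j => (![id, id, X.w A] : Fin 3 → D → D) j (x j)) := by
      funext x
      show K₁ ![x 0, x 1, X.w A (x 2)] = _
      congr 1
      funext j
      fin_cases j <;> rfl
    rw [e1]
    exact h1
  -- comparison with `f₀`
  have hcmp : ∀ S : Finset D, ∃ γ ∈ st X.G A, ∀ (β : Type) [Finite β] (s t y : β → D),
      (∀ l, s l ∈ S) → (∀ l, t l ∈ S) → (∀ l, y l ∈ S) →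
      Orb X.G ∅ (fun l => f (s l) (t l) (y l)) (fun l => f₀ (s l) (t l) (γ (X.w A (y l)))) := by
    intro S
    obtain ⟨β, hβ, η, hη, h1⟩ := hK1 (S ∪ S.image (X.w A))
    refine ⟨β 2, hβ 2, fun β' _ s t y hs ht hy => ?_⟩
    have e1 : (fun l => f (s l) (t l) (y l)) =
        fun l => η (f₀ (β 0 (s l)) (β 1 (t l)) (β 2 (X.w A (y l)))) := by
      funext l
      refine h1 ![s l, t l, X.w A (y l)] (fun j => ?_)
      fin_cases j
      · exact Finset.mem_union_left _ (hs l)
      · exact Finset.mem_union_left _ (ht l)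
      · exact Finset.mem_union_right _ (Finset.mem_image_of_mem _ (hy l))
    rw [e1]
    refine (Orb.of_mem hη _).symm.trans ?_
    exact hP₀ β' _ _ _ _ _ (Orb.of_mem (st_mono (Finset.empty_subset _) (hβ 0)) s).symm
      (Orb.of_mem (hβ 1) t).symm
  have hS : ∀ {β : Type} [Finite β] (x : β → D) (l : β), x l ∈ (Set.finite_range x).toFinset :=
    fun x l => by simp
  refine hJ.psi_false hH hHc hHv hΓ hΓc hθ hθc hf ?_ ?_ ?_
  · intro β _ s s' t t' y y' hs ht hy
    have h1 : Orb X.G ∅ (fun l => f (s l) (t l) (y l)) (fun l => f (s' l) (t' l) (y l)) := by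
      obtain ⟨γ, hγ, h1⟩ := hcmp ((Set.finite_range s).toFinset ∪ (Set.finite_range s').toFinset ∪
        (Set.finite_range t).toFinset ∪ (Set.finite_range t').toFinset ∪
        (Set.finite_range y).toFinset)
      have h2 := h1 β s t y (fun l => by simp) (fun l => by simp) (fun l => by simp)
      have h3 := h1 β s' t' y (fun l => by simp) (fun l => by simp) (fun l => by simp)
      exact (h2.trans (hP₀ β _ _ _ _ _ hs ht)).trans h3.symm
    refine h1.trans ?_
    have h2 := hK2.fin ![s', t', fun l => X.w A (y l)] ![s', t', fun l => X.w A (y' l)]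
      (fun j => by
        fin_cases j
        · exact Orb.refl _
        · exact Orb.refl _
        · exact hwc.fin y y' hy)
    have e1 : ∀ y : β → D, (fun l => K₁ (fun j => (![s', t', fun l => X.w A (y l)] :
        Fin 3 → β → D) j l)) = fun l => f (s' l) (t' l) (y l) := by
      intro y
      funext l
      show K₁ _ = K₁ ![s' l, t' l, X.w A (y l)]
      congr 1
      funext j
      fin_cases j <;> rfl
    rw [e1, e1] at h2
    exact h2
  · intro β _ s y a
    obtain ⟨γ, hγ, h1⟩ := hcmp ((Set.finite_range s).toFinset ∪ A ∪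
      (Set.finite_range y).toFinset)
    have h2 := h1 β s (fun l => a l) y (fun l => by simp) (fun l => by simp) (fun l => by simp)
    have h3 := hn₀ β s (fun l => γ (X.w A (y l))) a
    have h4 : Orb X.G ∅ (fun l => γ (X.w A (y l))) y :=
      (Orb.of_mem (st_mono (Finset.empty_subset _) hγ) _).symm.trans (hw.orb y).symm
    have h5 := hΓc.fin ![fun l => ((a l : {a // a ∈ A}) : D), fun l => γ (X.w A (y l))]
      ![fun l => ((a l : {a // a ∈ A}) : D), y] (fun j => by
        fin_cases j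
        · exact Orb.refl _
        · exact h4)
    have h6 := hHc.fin ![s, fun l => Γ (a l) (γ (X.w A (y l)))] ![s, fun l => Γ (a l) (y l)]
      (fun j => by
        fin_cases j
        · exact Orb.refl _
        · exact h5)
    exact (h2.trans h3).trans h6
  · intro hmem
    obtain ⟨γ, hγ, h1⟩ := hcmp (A ∪ A.image θ)
    have h2 := h1 ({a // a ∈ A} × {a // a ∈ A}) (fun p => p.1) (fun p => θ p.1) (fun p => p.2)
      (fun l => by simp) (fun l => by
        exact Finset.mem_union_right _ (Finset.mem_image_of_mem _ l.1.2)) (fun l => by simp)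
    have hPf : PCan X.G A f := by
      intro β _ s s' t t' y hs ht
      obtain ⟨γ, hγ, h1⟩ := hcmp ((Set.finite_range s).toFinset ∪ (Set.finite_range s').toFinset ∪
        (Set.finite_range t).toFinset ∪ (Set.finite_range t').toFinset ∪
        (Set.finite_range y).toFinset)
      have h2 := h1 β s t y (fun l => by simp) (fun l => by simp) (fun l => by simp)
      have h3 := h1 β s' t' y (fun l => by simp) (fun l => by simp) (fun l => by simp)
      exact (h2.trans (hP₀ β _ _ _ _ _ hs ht)).trans h3.symm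
    have hcopy : IsCopy X.G A (fun a => γ (X.w A (a : D))) := by
      obtain ⟨k, hk, hk1⟩ := hw A
      exact ⟨γ * k, X.G.mul_mem (st_le hγ) hk, fun a => congrArg γ (hk1 a a.2)⟩
    refine hno₀ _ hcopy ?_
    exact (hJ.congr (EE.of_pcan hf hPf hθ hθc) (EE.of_pcan hf₀ hP₀ hθ hθc)
      (e := inc A) (e' := fun a => γ (X.w A (a : D))) h2).1 hmem

end Pool.Agent.MP_f99268_lc
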