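import Pool.Agent.Lib.MP_f99268_lc_Y.Typ
import Pool.Agent.Lib.MP_f99268_lc_Y.CutFam
import Pool.Agent.Lib.MP_f99268_lc_Y.Psi

/-!
# Some copy inside a large set is accepted by `Φ`
-/

namespace Pool.Agent.MP_f99268_lc

open Equiv Classical Filter

variable {D : Type} [Countable D] {X : Ctx D} {r : ℕ} {A : Finset D} {J : D → D → D}

/-- Two canonical operations with the same class have the same types everywhere. -/
private theorem StepZ_feq (hJ : IsJ X r A J) {Γ Γ' : D → D → D}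
    (hΓ : bin Γ ∈ X.C 2) (hΓc : Can X.G ∅ ∅ (bin Γ)) (hΓ' : bin Γ' ∈ X.C 2)
    (hΓc' : Can X.G ∅ ∅ (bin Γ'))
    (h : cls X.G (fam Γ (inc A)) = cls X.G (fam Γ' (inc A))) {α : Type} [Finite α] (t : α → D) :
    FEq X.G (fam Γ t) (fam Γ' t) := by
  have h1 : FEq X.G (fam Γ (inc A)) (fam Γ' (inc A)) :=
    (cls_eq ((EE.of_can hΓ hΓc).sc _ _) ((EE.of_can hΓ' hΓc').sc _ _)).1 h
  intro m s
  obtain ⟨n, ⟨f⟩⟩ := Finite.exists_equiv_fin (Fin m × α)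
  have h2 := (orb_of_feq hJ.lo hJ.rich hΓc hΓc' h1 n
    ![fun l => s (f.symm l).1, fun l => t (f.symm l).2]).comp f
  simpa [bin, fam] using h2

/-- (z) There is a finite set `Z` such that `U(Φ)` always contains a copy inside `Z`. -/
theorem exists_Z (hJ : IsJ X r A J) {H : D → D → D} (hH : bin H ∈ X.C 2)
    (hHcan : Can X.G ∅ ∅ (bin H)) (hHval : X.val 1 (bin H) = 0) {θ : D → D} (hθ : Emb X.G θ)
    (hθA : CanU X.G ∅ A θ) :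
    ∃ Z : Finset D, ∀ g Γ K : D → D → D, EE X g → bin Γ ∈ X.C 2 → Can X.G ∅ ∅ (bin Γ) →
      FEq X.G (fam g (inc Z)) (fam Γ (inc Z)) → KF X H K (gim g A Z) →
      ∃ e, CopyIn X.G A Z e ∧ e ∈ US X A J (phi K g θ) := by
  have hfin : Finite (FamM X.G {a // a ∈ A}) := hJ.fin
  have : Fintype (FamM X.G {a // a ∈ A}) := Fintype.ofFinite _
  have key : ∀ x : FamM X.G {a // a ∈ A}, ∃ Z₀ : Finset D, ∀ Γ : D → D → D, bin Γ ∈ X.C 2 →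
      Can X.G ∅ ∅ (bin Γ) → cls X.G (fam Γ (inc A)) = x → ∀ Z : Finset D, Z₀ ⊆ Z →
      ∀ g K : D → D → D, EE X g → FEq X.G (fam g (inc Z)) (fam Γ (inc Z)) →
      KF X H K (gim g A Z) → ∃ e, CopyIn X.G A Z e ∧ e ∈ US X A J (phi K g θ) := by
    intro x
    by_cases hx : ∃ Γ : D → D → D, bin Γ ∈ X.C 2 ∧ Can X.G ∅ ∅ (bin Γ) ∧
        cls X.G (fam Γ (inc A)) = x
    · obtain ⟨Γ', h1, h2, h3⟩ := hx
      obtain ⟨Z₀, hZ₀⟩ := hJ.exists_Z hH hHcan hHval h1 h2 hθ hθA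
      refine ⟨Z₀, fun Γ hΓ hΓc hΓx Z hZ g K hg hgΓ hK => ?_⟩
      obtain ⟨e, he1, he2, he3⟩ := hZ₀ Z hZ g hg
        (hgΓ.trans (StepZ_feq hJ hΓ hΓc h1 h2 (hΓx.trans h3.symm) (inc Z))) K hK.ee hK.can
        (fun α _ w hw => hK.near α w hw)
      exact ⟨e, ⟨he1, he2⟩, he3⟩
    · exact ⟨∅, fun Γ hΓ hΓc hΓx => absurd ⟨Γ, hΓ, hΓc, hΓx⟩ hx⟩
  choose Z₀ hZ₀ using key
  refine ⟨Finset.univ.biUnion Z₀, fun g Γ K hg hΓ hΓc hgΓ hK => ?_⟩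
  exact hZ₀ _ Γ hΓ hΓc rfl _ (Finset.subset_biUnion_of_mem Z₀ (Finset.mem_univ _)) g K hg hgΓ hK

end Pool.Agent.MP_f99268_lc
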