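import Pool.Agent.Lib.MP_f99268_lc_Y.Eqv
import Pool.Agent.Lib.MP_f99268_lc_Y.StepB
import Pool.Agent.Lib.MP_f99268_lc_Y.StepE
import Pool.Agent.Lib.MP_f99268_lc_Y.StepZ
import Pool.Agent.Lib.MP_f99268_lc_X.Red
import Pool.Agent.Lib.MP_f99268_lc.Final

/-!
# Continuity of the value in every arity
-/

namespace Pool.Agent.MP_f99268_lc

open Equiv Classical Filter

variable {ι : Type} {ar : ι → ℕ} {D : Type} [Countable D]

/-- The bad situation is impossible. -/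
theorem Bad.false' {X : Ctx D} {r : ℕ} {A : Finset D} {J : D → D → D} (hJ : IsJ X r A J)
    {H : D → D → D} {K₀ : Finset D → D → D → D} (hb : Bad X H K₀) : False := by
  obtain ⟨θ, hθ, hθA⟩ : ∃ θ : D → D, Emb X.G θ ∧ CanU X.G ∅ A θ := X.exists_w A
  obtain ⟨Z, hZ⟩ := exists_Z hJ hb.mem hb.can hb.val hθ hθA
  obtain ⟨u, hu, huZ⟩ : ∃ u : D → D, Emb X.G u ∧ CanU X.G ∅ Z u := X.exists_w Z
  obtain ⟨N, hN⟩ : ∃ N : Finset D, N = A ∪ Z ∪ A.image u := ⟨_, rfl⟩
  have hAN : A ⊆ N := by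
    rw [hN]
    exact fun a ha => Finset.mem_union_left _ (Finset.mem_union_left _ ha)
  have hZN : Z ⊆ N := by
    rw [hN]
    exact fun a ha => Finset.mem_union_left _ (Finset.mem_union_right _ ha)
  have huN : ∀ a ∈ A, u a ∈ N := by
    rw [hN]
    exact fun a ha => Finset.mem_union_right _ (Finset.mem_image_of_mem _ ha)
  obtain ⟨g, Γ, W, hW⟩ := hJ.exists_jump hAN
  obtain ⟨K, hK⟩ := hb.exists_KF hJ (gim g A Z)
  have hnear : FEq X.G (fam g (inc Z)) (fam Γ (inc Z)) := fun m s =>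
    (hW.near m s).comp (fun p : Fin m × {z // z ∈ Z} => (p.1, (⟨p.2, hZN p.2.2⟩ : {y // y ∈ N})))
  obtain ⟨e, he, heU⟩ := hZ g Γ K hW.ee hW.mem hW.can hnear hK
  have h1 : ∀ e ∈ W, e ∈ US X A J (phi K g θ) := fun e he =>
    phi_mem hJ hW.ee hK (hW.unit e he).2 hθ hθA
  have h2 := hW.jump (phi K g θ) (hW.ee.phi hK hθ hθA) h1
    ⟨e, he.mono hZN, heU⟩ (fun a : {a // a ∈ A} => u a)
    ⟨by
      obtain ⟨g', hg', h⟩ := hu A
      exact ⟨g', hg', fun a => h a a.2⟩, fun a => huN a a.2⟩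
  exact phi_not_mem hJ hW.ee hZN hW.mem hW.can hW.val hW.near hK hθ hθA hu huZ huN h2

/-- Types of tuples are determined by the types of their subtuples of length `r`
(`orb_local` of `Struct.lean`). -/
theorem lo_autG' {Δ : Str ι ar D} (hΔ : Homogeneous Δ) {r : ℕ} (hr : ∀ i, ar i ≤ r)
    (hr2 : 2 ≤ r) : LO (autG Δ) r :=
  fun _ _ x y h => orb_local hΔ hr hr2 x y h

/-- Some finite set contains all types of `r`-tuples (`Olig.finite`). -/
theorem exists_rich' {G : Subgroup (Perm D)} (hO : Olig G) (r : ℕ) :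
    ∃ A : Finset D, Rich G r A := by
  obtain ⟨T, hT⟩ := hO.fin ∅ r
  refine ⟨T.biUnion (fun t => Finset.univ.image t), fun x => ?_⟩
  obtain ⟨g, hg, hgT⟩ := hT x
  refine ⟨g, st_le hg, fun i => ?_⟩
  rw [Finset.mem_biUnion]
  exact ⟨_, hgT, Finset.mem_image.2 ⟨i, Finset.mem_univ _, rfl⟩⟩

/-- Continuity. -/
theorem contH' {X : Ctx D} {r : ℕ} (hlo : LO X.G r) : ContH X := by
  apply contH_of
  intro H K hb
  obtain ⟨A, hA⟩ := exists_rich' X.hO r
  obtain ⟨J, hJ⟩ := exists_J X hlo hA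
  exact hb.false' hJ

/-- Q1 in every arity. -/
theorem main_all [Finite ι] {Δ : Str ι ar D}
    (hlin : IsStrictTotalOrder D Δ.lt) (hΔ : Homogeneous Δ) (hR : RamseyProperty Δ)
    {Γ : (n : ℕ) → Set (Set (Fin n → D))} (hΓ : IsReduct Δ Γ)
    (hno : ¬ HasHomToProjections (Pol Γ)) :
    ∃ (n : ℕ) (c : Fin n → D), ∀ m, ¬ HasHomToProjections (TypeClone Δ c (Pol Γ) m) := by
  by_contra hcon
  push Not at hcon
  have hhom : ∀ B : Finset D, Nonempty (HomC (autG Δ) (Pol Γ) B) := by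
    intro B
    obtain ⟨m, hm⟩ := hcon B.card (fun i => (B.equivFin.symm i : D))
    refine exists_homC (fun a => ?_) hm
    constructor
    · intro ha
      exact ⟨B.equivFin ⟨a, ha⟩, by simp⟩
    · rintro ⟨i, rfl⟩
      exact (B.equivFin.symm i).2
  let X : Ctx D :=
    { G := autG Δ
      C := Pol Γ
      hR := fr_autG hlin hΔ hR
      hO := olig_autG hlin hΔ
      hC := isClone_pol hΓ
      hom := fun B => (hhom B).some }
  obtain ⟨r₀, hr₀⟩ : ∃ r₀, ∀ i, ar i ≤ r₀ := by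
    obtain ⟨r₀, h⟩ := (Set.finite_range ar).bddAbove
    exact ⟨r₀, fun i => h ⟨i, rfl⟩⟩
  have hlo : LO X.G (max r₀ 2) :=
    lo_autG' hΔ (fun i => (hr₀ i).trans (le_max_left _ _)) (le_max_right _ _)
  exact hno (hasHom_of (X.exists_hom' (contH' hlo)))

end Pool.Agent.MP_f99268_lc
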