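import Pool.Agent.Lib.MP_f99268_lc_Y.Typ
import Pool.Agent.Lib.MP_f99268_lc_Y.Ulim

/-!
# The operation `Γ(θ s, u t)` over a finite set
-/

namespace Pool.Agent.MP_f99268_lc

open Equiv Classical Filter

variable {D : Type} [Countable D] {X : Ctx D} {r : ℕ} {A : Finset D} {J : D → D → D}

/-- Elements of the group that move the values of `Γ` to the values of `g`. -/
private theorem exists_alpha {N : Finset D} {g Γ : D → D → D}
    (hnear : FEq X.G (fam g (inc N)) (fam Γ (inc N))) (S : Finset D) :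
    ∃ α ∈ X.G, ∀ x ∈ S, ∀ y ∈ N, α (Γ x y) = g x y := by
  obtain ⟨α, hα, h⟩ := hnear.symm.fin (fun x : {x // x ∈ S} => (x : D))
  exact ⟨α, st_le hα, fun x hx y hy => h (⟨x, hx⟩, ⟨y, hy⟩)⟩

omit [Countable D] in
/-- A tuple together with constants. -/
private theorem orb_elim {G : Subgroup (Perm D)} {c : Finset D} {m : ℕ} {s s' : Fin m → D}
    (h : Orb G c s s') {β : Type} {f : β → D} (hf : ∀ b, f b ∈ c) :
    Orb G ∅ (Sum.elim s f) (Sum.elim s' f) := by
  obtain ⟨k, hk, hks⟩ := h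
  refine ⟨k, by rw [st_empty]; exact st_le hk, ?_⟩
  rintro (b | a)
  · exact hks b
  · exact (mem_st.1 hk).2 _ (hf a)

/-- For the tuples `s : β → D`, the operation `Γ` and the finite set `Z` with the types of `g` on
`N`: the family `Γ(θ s_l, u y_l)` over the values `Γ(a, z)`, `a ∈ A`, `z ∈ Z`. There is an
operation `Γ'`, canonical from the empty set to `gim g A Z`, which has the types of
`Γ(θ s, u t)`, and with `Γ'(s_l, a_l)` of the same type as `g(θ s_l, u a_l)` over `gim g A Z` for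
`a_l ∈ A`.

Proof. For every finite `B` let `α B ∈ G` be such that `α B (Γ (x, y)) = g (x, y)` for all
`x ∈ B.image θ ∪ A` and `y ∈ N` (`near` in the form `FEq.fin` for the finite index set of these
`x`). Let `Γ'` be the limit of the functions `x ↦ α B (Γ (θ (x 0), u (x 1)))` modulo
`st X.G (gim g A Z)` (`ulim`, `X.hO.st _`, index set `Fin 2 → D`). For all finite sets and almost
all `B`, `Γ' = η (α B) Γ (θ ·, u ·)` with `η ∈ st X.G (gim g A Z)`, and `α B (Γ (a, z)) = g (a, z)`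
for `a ∈ A`, `z ∈ Z`.
Membership: `X.hC.closed`. Canonical: let `s ~ s'`, `t ~ t'`. The tuples `(θ s, a)` and `(θ s', a)`
(`a ∈ A`) have the same type, and the tuples `(u t, z)`, `(u t', z)` (`z ∈ Z`); as `Γ` is canonical
some element of `G` maps `Γ (θ s_l, u t_l)` to `Γ (θ s'_l, u t'_l)` and fixes `Γ (a, z)` (use
`Can.fin` for the index set `Fin m ⊕ ({a // a ∈ A} × {z // z ∈ Z})`). Conjugate with `α B`.
Last statement: for `B` with `s_l ∈ B`: `α B (Γ (θ s_l, u a_l)) = g (θ s_l, u a_l)` as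
`u a_l ∈ N`. -/
theorem exists_gam' {N Z : Finset D} {g Γ : D → D → D} (hZN : Z ⊆ N) (hC : bin Γ ∈ X.C 2)
    (hcan : Can X.G ∅ ∅ (bin Γ)) (hnear : FEq X.G (fam g (inc N)) (fam Γ (inc N)))
    {θ u : D → D} (hθ : Emb X.G θ) (hθA : CanU X.G ∅ A θ) (hu : Emb X.G u)
    (huZ : CanU X.G ∅ Z u) (huN : ∀ a ∈ A, u a ∈ N) :
    ∃ Γ' : D → D → D, bin Γ' ∈ X.C 2 ∧ Can X.G ∅ (gim g A Z) (bin Γ') ∧
      (∀ (m : ℕ) (s t : Fin m → D), Orb X.G ∅ (fun l => Γ' (s l) (t l))
        (fun l => Γ (θ (s l)) (u (t l)))) ∧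
      ∀ (m : ℕ) (s t : Fin m → D), (∀ l, t l ∈ A) →
        Orb X.G (gim g A Z) (fun l => Γ' (s l) (t l)) (fun l => g (θ (s l)) (u (t l))) := by
  choose α hα hαg using fun B : Finset D => exists_alpha hnear (B.image θ ∪ A)
  obtain ⟨F₀, hF⟩ := ulim (X.hO.st (gim g A Z))
    (fun B (x : Fin 2 → D) => α B (Γ (θ (x 0)) (u (x 1))))
  have hb : bin (fun s t => F₀ ![s, t]) = F₀ := by
    funext x
    show F₀ ![x 0, x 1] = F₀ x
    congr 1
    funext j
    fin_cases j <;> rfl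
  refine ⟨fun s t => F₀ ![s, t], ?_, ?_, ?_, ?_⟩
  · rw [hb]
    apply X.hC.closed
    intro S
    obtain ⟨B, η, hη, h⟩ := (hF (Fintype.piFinset fun _ : Fin 2 => S)).exists
    have h1 : (fun x : Fin 2 → D => bin Γ (fun j => (if j = 0 then θ else u) (x j))) ∈ X.C 2 := by
      apply X.hC.comp_emb hC
      intro j
      by_cases hj : j = 0
      · simp only [hj, if_true]
        exact hθ
      · simp only [hj, if_false]
        exact hu
    refine ⟨_, X.hC.aut_comp (X.hC.aut_comp h1 (hα B)) (st_le hη), fun x hx => ?_⟩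
    rw [h x (Fintype.mem_piFinset.2 hx)]
    simp [bin]
  · intro m x y hxy
    rw [hb]
    obtain ⟨B, η, hη, h⟩ := (hF ((Finset.univ.image fun (l : Fin m) (j : Fin 2) => x j l) ∪
      Finset.univ.image fun (l : Fin m) (j : Fin 2) => y j l)).exists
    have hx : ∀ l, F₀ (fun j => x j l) = η (α B (Γ (θ (x 0 l)) (u (x 1 l)))) := fun l =>
      h _ (Finset.mem_union_left _ (Finset.mem_image_of_mem _ (Finset.mem_univ l)))
    have hy : ∀ l, F₀ (fun j => y j l) = η (α B (Γ (θ (y 0 l)) (u (y 1 l)))) := fun l =>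
      h _ (Finset.mem_union_right _ (Finset.mem_image_of_mem _ (Finset.mem_univ l)))
    have e0 := orb_elim (hθA m _ _ (hxy 0)) (f := fun p : {a // a ∈ A} × {z // z ∈ Z} =>
      (p.1 : D)) (fun p => p.1.2)
    have e1 := orb_elim (huZ m _ _ (hxy 1)) (f := fun p : {a // a ∈ A} × {z // z ∈ Z} =>
      (p.2 : D)) (fun p => p.2.2)
    obtain ⟨ρ, hρ, hρs⟩ := hcan.fin
      ![Sum.elim (fun l => θ (x 0 l)) (fun p : {a // a ∈ A} × {z // z ∈ Z} => (p.1 : D)),
        Sum.elim (fun l => u (x 1 l)) (fun p : {a // a ∈ A} × {z // z ∈ Z} => (p.2 : D))]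
      ![Sum.elim (fun l => θ (y 0 l)) (fun p : {a // a ∈ A} × {z // z ∈ Z} => (p.1 : D)),
        Sum.elim (fun l => u (y 1 l)) (fun p : {a // a ∈ A} × {z // z ∈ Z} => (p.2 : D))]
      (by
        intro j
        fin_cases j
        · exact e0
        · exact e1)
    rw [st_empty] at hρ
    have h1 : ∀ l, ρ (Γ (θ (x 0 l)) (u (x 1 l))) = Γ (θ (y 0 l)) (u (y 1 l)) := fun l =>
      hρs (Sum.inl l)
    have h2 : ∀ a ∈ A, ∀ z ∈ Z, ρ (Γ a z) = Γ a z := fun a ha z hz =>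
      hρs (Sum.inr (⟨a, ha⟩, ⟨z, hz⟩))
    have hη' := mem_st.1 hη
    refine ⟨η * (α B * ρ * (α B)⁻¹) * η⁻¹, mem_st.2 ⟨?_, ?_⟩, fun l => ?_⟩
    · exact X.G.mul_mem (X.G.mul_mem (st_le hη) (X.G.mul_mem (X.G.mul_mem (hα B) hρ)
        (X.G.inv_mem (hα B)))) (X.G.inv_mem (st_le hη))
    · intro c hc
      obtain ⟨p, hp, rfl⟩ := Finset.mem_image.1 hc
      have hp' := Finset.mem_product.1 hp
      have e2 : α B (Γ p.1 p.2) = g p.1 p.2 :=
        hαg B _ (Finset.mem_union_right _ hp'.1) _ (hZN hp'.2)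
      have e3 : η (g p.1 p.2) = g p.1 p.2 := hη'.2 _ hc
      have e4 : η⁻¹ (g p.1 p.2) = g p.1 p.2 := by
        rw [Perm.inv_eq_iff_eq]
        exact e3.symm
      have e5 : (α B)⁻¹ (g p.1 p.2) = Γ p.1 p.2 := by
        rw [Perm.inv_eq_iff_eq]
        exact e2.symm
      simp only [Perm.mul_apply]
      rw [e4, e5, h2 _ hp'.1 _ hp'.2, e2, e3]
    · show (η * (α B * ρ * (α B)⁻¹) * η⁻¹) (F₀ (fun j => x j l)) = F₀ (fun j => y j l)
      rw [hx, hy]
      have e6 : η⁻¹ (η (α B (Γ (θ (x 0 l)) (u (x 1 l))))) = α B (Γ (θ (x 0 l)) (u (x 1 l))) := by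
        rw [Perm.inv_eq_iff_eq]
      have e7 : (α B)⁻¹ (α B (Γ (θ (x 0 l)) (u (x 1 l)))) = Γ (θ (x 0 l)) (u (x 1 l)) := by
        rw [Perm.inv_eq_iff_eq]
      simp only [Perm.mul_apply]
      rw [e6, e7, h1]
  · intro m s t
    obtain ⟨B, η, hη, h⟩ := (hF (Finset.univ.image fun (l : Fin m) => ![s l, t l])).exists
    refine Orb.symm ⟨η * α B, ?_, fun l => ?_⟩
    · rw [st_empty]
      exact X.G.mul_mem (st_le hη) (hα B)
    · exact (h _ (Finset.mem_image_of_mem _ (Finset.mem_univ l))).symm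
  · intro m s t ht
    obtain ⟨B, ⟨η, hη, h⟩, hB⟩ := ((hF (Finset.univ.image fun (l : Fin m) => ![s l, t l])).and
      (uf_superset (Finset.univ.image s))).exists
    refine Orb.symm ⟨η, hη, fun l => ?_⟩
    have h1 : F₀ ![s l, t l] = η (α B (Γ (θ (s l)) (u (t l)))) :=
      h _ (Finset.mem_image_of_mem _ (Finset.mem_univ l))
    show η (g (θ (s l)) (u (t l))) = F₀ ![s l, t l]
    rw [h1, hαg B (θ (s l)) (Finset.mem_union_left _ (Finset.mem_image_of_mem _
      (hB (Finset.mem_image_of_mem _ (Finset.mem_univ l))))) (u (t l)) (huN _ (ht l))]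

end Pool.Agent.MP_f99268_lc
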