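import Pool.Agent.Lib.MP_f99268_lc_Y.Typ
import Pool.Agent.Lib.MP_f99268_lc_Y.Ulim

/-!
# The operation `J` over a finite set
-/

namespace Pool.Agent.MP_f99268_lc

open Equiv Classical Filter

variable {D : Type} [Countable D] {X : Ctx D} {r : ℕ} {A : Finset D} {J : D → D → D}

omit [Countable D] in
private theorem StepE1_can {G : Subgroup (Perm D)} {c₀ c : Finset D} {F : (Fin 2 → D) → D}
    (h : Can G c₀ c F) {β : Type} [Finite β] {s s' t t' : β → D} (hs : Orb G c₀ s s')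
    (ht : Orb G c₀ t t') : Orb G c (fun l => F ![s l, t l]) (fun l => F ![s' l, t' l]) := by
  have e : ∀ s t : β → D, (fun l => F ![s l, t l]) =
      fun l => F (fun j => (![s, t] : Fin 2 → β → D) j l) := by
    intro s t
    funext l
    congr 1
    funext j
    fin_cases j <;> rfl
  rw [e s t, e s' t']
  apply h.fin
  intro j
  fin_cases j
  · exact hs
  · exact ht

/-- Let `g` have at the copy `e` the types of `J`. There is an operation `g'` with the types of
`J`, canonical from `A` to `c = gim g A Z` and canonical from nothing in the first variable, such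
that `g'(s_l, a_l)`, `a_l ∈ A`, has the type of `g(θ s_l, e a_l)` over `c`.

Proof. For every finite `B` the family `g (θ s, e a)`, `s ∈ B`, `a ∈ A`, has the types of
`J (θ s, a)` (`he`), which has the types of `J (s, a)` (`J` is canonical); let `α B ∈ G` be such
that `α B (J (s, a)) = g (θ s, e a)` for `s ∈ B`, `a ∈ A`. Let `G₀` be the limit of the functions
`x ↦ α B (J (x 0, x 1))` modulo `st X.G c` (`ulim`, index set `Fin 2 → D`). Let `G₁` be the
canonisation of `G₀` from `A` to `c` (`canonise_one X.hR X.hO A c G₀`), let `w = X.w A`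
(`CanU ∅ A w`), and `g' s t = G₁ ![w s, t]`. Types: on finite sets
`G₁ (x, y) = η (G₀ (β 0 x, β 1 y))` with `β 0, β 1 ∈ st X.G A`, `η ∈ st X.G c`, and
`G₀ = η' (α B) J` with `η' ∈ st X.G c` for almost all `B`. So `g'` has the types of
`J (β 0 (w s), β 1 t)`, that is of `J (s, t)`. For `t_l = a_l ∈ A` we have `β 1 a_l = a_l` and
`g' (s_l, a_l)` is, over `c`, of the type of `α B (J (β 0 (w s_l), a_l)) = g (θ (β 0 (w s_l)), e a_l)`
(`B` contains the `β 0 (w s_l)`), and `θ ∘ β 0 ∘ w ∘ s` and `θ ∘ s` have the same type over `A`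
(`hθA`; `β 0 ∘ w ∘ s ~ s`), so `EE.over` gives the type of `g (θ s_l, e a_l)` over `c`.
Canonical: `s ~ s'` gives `w s ~ w s'` over `A`, then `G₁` is canonical from `A` to `c`. -/
theorem exists_ghat (hJ : IsJ X r A J) {g : D → D → D} {Z : Finset D} (hg : EE X g)
    {e : {a // a ∈ A} → D} (he : FEq X.G (fam g e) (fam J (inc A)))
    {θ : D → D} (hθ : Emb X.G θ) (hθA : CanU X.G ∅ A θ) :
    ∃ g' : D → D → D, bin g' ∈ X.C 2 ∧
      (∀ (m : ℕ) (s s' t t' : Fin m → D), Orb X.G ∅ s s' → Orb X.G A t t' →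
        Orb X.G (gim g A Z) (fun l => g' (s l) (t l)) (fun l => g' (s' l) (t' l))) ∧
      (∀ (m : ℕ) (s t : Fin m → D), Orb X.G ∅ (fun l => g' (s l) (t l))
        (fun l => J (s l) (t l))) ∧
      ∀ (m : ℕ) (s : Fin m → D) (t : Fin m → {a // a ∈ A}),
        Orb X.G (gim g A Z) (fun l => g' (s l) (t l)) (fun l => g (θ (s l)) (e (t l))) := by
  obtain ⟨α, hα, hαe⟩ : ∃ α : Finset D → Perm D, (∀ B, α B ∈ X.G) ∧
      ∀ B, ∀ s ∈ B, ∀ a : {a // a ∈ A}, α B (J s a) = g (θ s) (e a) := by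
    have h : ∀ B : Finset D, ∃ k : Perm D, k ∈ X.G ∧
        ∀ s ∈ B, ∀ a : {a // a ∈ A}, k (J s a) = g (θ s) (e a) := by
      intro B
      have h1 := he.fin (fun s : {s // s ∈ B} => θ s)
      have h2 := hJ.can.fin (α := {s // s ∈ B} × {a // a ∈ A})
        (fun j p => (![(p.1 : D), (p.2 : D)] : Fin 2 → D) j)
        (fun j p => (![θ p.1, (p.2 : D)] : Fin 2 → D) j) (by
          intro j
          fin_cases j
          · exact hθ.orb (fun p : {s // s ∈ B} × {a // a ∈ A} => (p.1 : D))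
          · exact Orb.refl _)
      obtain ⟨k, hk, hk'⟩ := h2.trans h1.symm
      exact ⟨k, st_le hk, fun s hs a => hk' (⟨s, hs⟩, a)⟩
    choose α hα hαe using h
    exact ⟨α, hα, hαe⟩
  obtain ⟨c, hc⟩ : ∃ c, c = gim g A Z := ⟨_, rfl⟩
  rw [← hc]
  obtain ⟨G₀, hG₀⟩ := ulim (X.hO.st c) (fun B (x : Fin 2 → D) => α B (J (x 0) (x 1)))
  obtain ⟨G₁, h1, h2⟩ := canonise_one X.hR X.hO A c G₀
  -- the values on finite sets
  have loc : ∀ S T : Finset D, ∃ β₀ ∈ st X.G A, ∃ β₁ ∈ st X.G A, ∃ η ∈ st X.G c,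
      ∃ B : Finset D, (∀ s ∈ S, β₀ (X.w A s) ∈ B) ∧
        ∀ s ∈ S, ∀ t ∈ T, G₁ ![X.w A s, t] = η (α B (J (β₀ (X.w A s)) (β₁ t))) := by
    intro S T
    obtain ⟨β, hβ, η, hη, h3⟩ := h1 (S.image (X.w A) ∪ T)
    obtain ⟨B, ⟨η', hη', h4⟩, hB⟩ := ((hG₀ ((S ×ˢ T).image
      (fun p => (![β 0 (X.w A p.1), β 1 p.2] : Fin 2 → D)))).and
        (uf_superset (S.image fun s => β 0 (X.w A s)))).exists
    refine ⟨β 0, hβ 0, β 1, hβ 1, η * η', mul_mem hη hη', B,
      fun s hs => hB (Finset.mem_image_of_mem _ hs), fun s hs t ht => ?_⟩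
    have e1 := h3 ![X.w A s, t] (fun j => by
      fin_cases j
      · exact Finset.mem_union_left _ (Finset.mem_image_of_mem _ hs)
      · exact Finset.mem_union_right _ ht)
    have e2 : (fun j => β j ((![X.w A s, t] : Fin 2 → D) j)) =
        ![β 0 (X.w A s), β 1 t] := by
      funext j
      fin_cases j <;> rfl
    rw [e1, e2, h4 _ (Finset.mem_image.2 ⟨(s, t), Finset.mem_product.2 ⟨hs, ht⟩, rfl⟩)]
    rfl
  refine ⟨fun s t => G₁ ![X.w A s, t], ?_, ?_, ?_, ?_⟩
  · apply X.hC.closed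
    intro S
    obtain ⟨β₀, hβ₀, β₁, hβ₁, η, hη, B, hB, h3⟩ := loc S S
    have h4 : (fun x : Fin 2 → D => bin J (fun j =>
        (![fun s => β₀ (X.w A s), β₁] : Fin 2 → D → D) j (x j))) ∈ X.C 2 := by
      apply X.hC.comp_emb hJ.mem
      intro j
      fin_cases j
      · intro S'
        obtain ⟨k, hk, hk'⟩ := X.w_emb A S'
        exact ⟨β₀ * k, mul_mem (st_le hβ₀) hk, fun a ha => congrArg β₀ (hk' a ha)⟩
      · exact Emb.of_mem (st_le hβ₁)
    exact ⟨_, X.hC.aut_comp h4 (mul_mem (st_le hη) (hα B)), fun x hx => h3 _ (hx 0) _ (hx 1)⟩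
  · intro m s s' t t' hs ht
    exact StepE1_can h2 (X.w_can A m s s' hs) ht
  · intro m s t
    obtain ⟨β₀, hβ₀, β₁, hβ₁, η, hη, B, hB, h3⟩ :=
      loc (Finset.univ.image s) (Finset.univ.image t)
    have e1 : (fun l => G₁ ![X.w A (s l), t l]) =
        fun l => (η * α B) (J (β₀ (X.w A (s l))) (β₁ (t l))) := by
      funext l
      exact h3 _ (Finset.mem_image_of_mem _ (Finset.mem_univ _)) _
        (Finset.mem_image_of_mem _ (Finset.mem_univ _))
    show Orb X.G ∅ (fun l => G₁ ![X.w A (s l), t l]) _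
    rw [e1]
    refine (Orb.of_mem (by rw [st_empty]; exact mul_mem (st_le hη) (hα B)) _).symm.trans ?_
    refine StepE1_can (F := bin J) hJ.can ?_ ?_
    · exact ((Orb.of_mem (by rw [st_empty]; exact st_le hβ₀) _).symm).trans
        ((X.w_emb A).orb s).symm
    · exact (Orb.of_mem (by rw [st_empty]; exact st_le hβ₁) _).symm
  · intro m s t
    obtain ⟨β₀, hβ₀, β₁, hβ₁, η, hη, B, hB, h3⟩ := loc (Finset.univ.image s) A
    have e1 : (fun l => G₁ ![X.w A (s l), (t l : D)]) =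
        fun l => η (g (θ (β₀ (X.w A (s l)))) (e (t l))) := by
      funext l
      have hsl : s l ∈ Finset.univ.image s := Finset.mem_image_of_mem _ (Finset.mem_univ _)
      rw [h3 _ hsl _ (t l).2, (mem_st.1 hβ₁).2 _ (t l).2, hαe B _ (hB _ hsl)]
    show Orb X.G c (fun l => G₁ ![X.w A (s l), (t l : D)]) _
    rw [e1]
    refine (Orb.of_mem hη _).symm.trans ?_
    have h4 : Orb X.G A (fun l => θ (β₀ (X.w A (s l)))) (fun l => θ (s l)) :=
      hθA m _ _ (((Orb.of_mem (by rw [st_empty]; exact st_le hβ₀) _).symm).trans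
        ((X.w_emb A).orb s).symm)
    have h5 := (hg.over A Z h4 e).comp (fun l : Fin m => (l, t l))
    rw [hc]
    exact h5

end Pool.Agent.MP_f99268_lc
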