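import Pool.Agent.Lib.MP_f99268_lc_X.C2

/-!
# The bad situation gives a discontinuity of type II
-/

namespace Pool.Agent.MP_f99268_lc

open Equiv Classical

variable {D : Type} [Countable D] {X : Ctx D} {r : ℕ} {A : Finset D} {J : D → D → D}

/-- `K` is canonical (nothing, `c`), of value `1`, and agrees with `H` on `D × c`, up to types. -/
structure IsK (X : Ctx D) (H : D → D → D) (c : Finset D) (K : D → D → D) : Prop where
  ee : EE X K
  can : Can X.G c ∅ (bin K)
  val : X.val 1 (bin K) = 1
  near : ∀ (α β : Type) [Finite α] [Finite β] (x : β → D) (y : α → D), (∀ a, y a ∈ c) →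
    Orb X.G ∅ (fun p : β × α => K (x p.1) (y p.2)) (fun p => H (x p.1) (y p.2))

/-- The bad situation gives a discontinuity of type II. -/
theorem Bad.exists_K (hJ : IsJ X r A J) {H : D → D → D} {K : Finset D → D → D → D}
    (hb : Bad X H K) (c : Finset D) : ∃ g, IsK X H c g := by
  obtain ⟨L, hL⟩ := hb.exists_L c
  have hval := hL.val_eq hJ hb
  obtain ⟨u, hu, huc⟩ : ∃ u : D → D, Emb X.G u ∧ CanU X.G ∅ c u := X.exists_w c
  have hEu : ∀ j : Fin 2, Emb X.G ((fun j : Fin 2 => if j = 0 then u else id) j) := by
    intro j
    by_cases hj : j = 0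
    · simp only [hj, if_true]
      exact hu
    · simp only [hj, if_false]
      exact Emb.of_mem (g := 1) X.G.one_mem
  have hCu : ∀ j : Fin 2, CanU X.G c c ((fun j : Fin 2 => if j = 0 then u else id) j) := by
    intro j
    by_cases hj : j = 0
    · simp only [hj, if_true]
      intro m x y hxy
      exact huc m x y (hxy.mono (Finset.empty_subset _))
    · simp only [hj, if_false]
      intro m x y hxy
      exact hxy
  have hfun : (fun x : Fin 2 → D => bin L (fun j => (fun j : Fin 2 => if j = 0 then u else id) j
      (x j))) = bin (fun s t => L (u s) t) := by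
    funext x
    simp [bin]
  have hmem : bin (fun s t => L (u s) t) ∈ X.C 2 := by
    rw [← hfun]
    exact X.hC.comp_emb hL.mem hEu
  have hcan : Can X.G c ∅ (bin (fun s t => L (u s) t)) := by
    rw [← hfun]
    exact hL.can.comp_canU hCu
  have hvg : X.val 1 (bin (fun s t => L (u s) t)) = 1 := by
    rw [← hfun, ← hval]
    exact X.val_box hL.mem hL.can hEu hCu
  have hE : EE X (fun s t => L (u s) t) := by
    refine ⟨hmem, ?_⟩
    intro α _ t m s s' hs
    have h1 : Orb X.G c (fun l => u (s l)) (fun l => u (s' l)) := huc m s s' hs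
    have h2 := hL.can.fin (α := Fin m × α)
      (fun j p => if j = 0 then u (s p.1) else t p.2)
      (fun j p => if j = 0 then u (s' p.1) else t p.2) (by
        intro j
        by_cases hj : j = 0
        · simp only [hj, if_true]
          exact h1.comp (fun p : Fin m × α => p.1)
        · simp only [hj, if_false]
          exact Orb.refl _)
    simpa [bin, fam] using h2
  refine ⟨fun s t => L (u s) t, hE, hcan, hvg, ?_⟩
  intro α β _ _ x y hy
  have h1 : Orb X.G ∅ (fun p : β × α => L (u (x p.1)) (y p.2))
      (fun p => H (u (x p.1)) (y p.2)) := by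
    obtain ⟨n, ⟨f⟩⟩ := Finite.exists_equiv_fin β
    have := (hL.near n (fun l => u (x (f.symm l))) α y hy).comp
      (fun p : β × α => (f p.1, p.2))
    simpa using this
  refine h1.trans ?_
  have h2 := hb.can.fin (α := β × α)
    (fun j p => if j = 0 then u (x p.1) else y p.2)
    (fun j p => if j = 0 then x p.1 else y p.2) (by
      intro j
      by_cases hj : j = 0
      · simp only [hj, if_true]
        exact (hu.orb (fun p : β × α => x p.1)).symm
      · simp only [hj, if_false]
        exact Orb.refl _)
  simpa [bin] using h2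

end Pool.Agent.MP_f99268_lc
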