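import Pool.Agent.Lib.MP_f99268_lc_Y.Two

/-!
# The operations `Φ(s, t) = K(s, g(θ s, t))`

`g` is canonical in the first variable, `θ` is a self-embedding in canonical position over the
finite set `A`, `K` is canonical over the finite set `g(A × Z)`.
-/

namespace Pool.Agent.MP_f99268_lc

open Equiv Classical Filter

variable {D : Type} [Countable D] {X : Ctx D} {r : ℕ} {A : Finset D} {J : D → D → D}

/-- The set of the values `g(a, z)`, `a ∈ A`, `z ∈ Z`. -/
noncomputable def gim (g : D → D → D) (A Z : Finset D) : Finset D :=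
  (A ×ˢ Z).image fun p => g p.1 p.2

/-- `K` is canonical in the first variable, canonical over `c`, it has the types of `H` for all
constant second variables in `c`, and its value is `1`. -/
structure KF (X : Ctx D) (H K : D → D → D) (c : Finset D) : Prop where
  ee : EE X K
  can : Can X.G c ∅ (bin K)
  near : ∀ (α : Type) [Finite α] (y : α → D), (∀ a, y a ∈ c) → FEq X.G (fam K y) (fam H y)
  val : X.val 1 (bin K) = 1

/-- `Φ(s, t) = K(s, g(θ s, t))`. -/
def phi (K g : D → D → D) (θ : D → D) : D → D → D := fun s t => K s (g (θ s) t)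

/-- Type II. Let `L` be as in `Bad.exists_L` for `c`, `u = X.w c` and `K s t = L (u s) t`. All the
statements except `near` are proved in the proof of `Bad.C2` (file `X/C2.lean`, copy them); `near`:
the family `L (u s_l, y_a)` has the type of `H (u s_l, y_a)` (`hL.near`), which has the type of
`H (s_l, y_a)` (`H` is canonical, `u` is an embedding). -/
theorem Bad.exists_KF (hJ : IsJ X r A J) {H : D → D → D} {K₀ : Finset D → D → D → D}
    (hb : Bad X H K₀) (c : Finset D) : ∃ K, KF X H K c := by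
  obtain ⟨K, hK⟩ := hb.exists_K hJ c
  refine ⟨K, hK.ee, hK.can, ?_, hK.val⟩
  intro α _ y hy m s
  exact hK.near α (Fin m) s y hy

/-- If `s`, `s'` have the same type over `A` then `g(s_l, y_a)`, `g(s'_l, y_a)` have the same type
over `g(A × Z)`. Apply `hg.sc` (in the form `SCan.fin`) to the tuples `Sum.elim s (inc A)` and
`Sum.elim s' (inc A)`, indexed by `β ⊕ {a // a ∈ A}`, and to the constants
`Sum.elim y (inc Z)`, indexed by `α ⊕ {z // z ∈ Z}`. The element of `G` obtained maps
`g (a, z)` to itself, so it is in `st X.G (gim g A Z)`. -/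
theorem EE.over {g : D → D → D} (hg : EE X g) (A Z : Finset D) {α β : Type} [Finite α] [Finite β]
    {s s' : β → D} (hs : Orb X.G A s s') (y : α → D) :
    Orb X.G (gim g A Z) (fun p : β × α => g (s p.1) (y p.2)) (fun p => g (s' p.1) (y p.2)) := by
  obtain ⟨k, hk, hks⟩ := hs
  have h1 : Orb X.G ∅ (Sum.elim s (inc A)) (Sum.elim s' (inc A)) := by
    refine ⟨k, st_mono (Finset.empty_subset _) hk, ?_⟩
    rintro (l | a)
    · exact hks l
    · exact (mem_st.1 hk).2 a a.2
  obtain ⟨h, hh, hhe⟩ := (hg.sc (α ⊕ {z // z ∈ Z}) (Sum.elim y (inc Z))).fin _ _ h1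
  refine ⟨h, ?_, fun p => hhe (Sum.inl p.1, Sum.inl p.2)⟩
  rw [mem_st]
  refine ⟨st_le hh, fun w hw => ?_⟩
  obtain ⟨⟨a, z⟩, haz, rfl⟩ := Finset.mem_image.1 hw
  rw [Finset.mem_product] at haz
  exact hhe (Sum.inr ⟨a, haz.1⟩, Sum.inr ⟨z, haz.2⟩)

/-- Types of `K(s_l, v_l)`: they depend only on the type of `s` and on the type of `v` over `c`
(`EE.can_left`). -/
theorem KF.orb {H K : D → D → D} {c : Finset D} (hK : KF X H K c) {β : Type} [Finite β]
    {s s' v v' : β → D} (hs : Orb X.G ∅ s s') (hv : Orb X.G c v v') :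
    Orb X.G ∅ (fun l => K (s l) (v l)) (fun l => K (s' l) (v' l)) :=
  hK.ee.can_left hK.can hs hv

/-- Types of `Φ`: if `s`, `s'` have the same type and `x`, `x'` have the same type over `A` then
`K(s_l, g(x_l, y_a))`, `K(s'_l, g(x'_l, y_a))` have the same type (`hK.orb` for the index set
`β × α` and `EE.over`). -/
theorem KF.orb₂ {H K g : D → D → D} {Z : Finset D} (hg : EE X g) (hK : KF X H K (gim g A Z))
    {α β : Type} [Finite α] [Finite β] {s s' x x' : β → D} (hs : Orb X.G ∅ s s')
    (hx : Orb X.G A x x') (y : α → D) :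
    Orb X.G ∅ (fun p : β × α => K (s p.1) (g (x p.1) (y p.2)))
      (fun p => K (s' p.1) (g (x' p.1) (y p.2))) :=
  hK.orb (hs.comp (fun p : β × α => p.1)) (hg.over A Z hx y)

/-- `Φ ∈ 𝔼`: membership by `X.hC.comp` and `X.hC.emb_comp`/`comp_emb`; `KF.orb₂` with
`x = θ ∘ s`, `x' = θ ∘ s'` (`hθA`). -/
theorem EE.phi {H K g : D → D → D} {Z : Finset D} (hg : EE X g) (hK : KF X H K (gim g A Z))
    {θ : D → D} (hθ : Emb X.G θ) (hθA : CanU X.G ∅ A θ) : EE X (phi K g θ) := by
  refine ⟨?_, ?_⟩
  · have h1 : (fun x : Fin 2 → D => bin g (fun i => (![fun x => θ (x 0), fun x => x 1] :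
        Fin 2 → (Fin 2 → D) → D) i x)) ∈ X.C 2 := by
      apply X.hC.comp 2 2 _ _ hg.mem
      intro i
      fin_cases i
      · exact X.hC.emb_comp (X.hC.proj 2 0) hθ
      · exact X.hC.proj 2 1
    have h2 : (fun x : Fin 2 → D => bin K (fun i => (![fun x => x 0, fun x : Fin 2 → D =>
        bin g (fun i => (![fun x => θ (x 0), fun x => x 1] : Fin 2 → (Fin 2 → D) → D) i x)] :
        Fin 2 → (Fin 2 → D) → D) i x)) ∈ X.C 2 := by
      apply X.hC.comp 2 2 _ _ hK.ee.mem
      intro i
      fin_cases i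
      · exact X.hC.proj 2 0
      · exact h1
    exact h2
  · intro α _ t m s s' hs
    exact hK.orb₂ hg hs (hθA.fin s s' hs) t

end Pool.Agent.MP_f99268_lc
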